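import Pool.Agent.Lib.MP_100a6c_lc.Defs

/-!
# Base library for the Boolean-valued universe `V^B`
-/

universe u

open scoped symmDiff

namespace Pool.Agent.Lib.MP_100a6c_lc

variable {B : Type u} [CompleteBooleanAlgebra B]

namespace BName

/-- Index type of a name. -/
def ix : BName B → Type u
  | mk ι _ _ => ι

/-- The names of the possible elements. -/
def nm : (x : BName B) → x.ix → BName B
  | mk _ a _ => a

/-- The values of the possible elements. -/
def vl : (x : BName B) → x.ix → B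
  | mk _ _ p => p

theorem beq_def (x y : BName B) : beq x y =
    (⨅ i, x.vl i ⇨ ⨆ j, y.vl j ⊓ beq (x.nm i) (y.nm j)) ⊓
      ⨅ j, y.vl j ⇨ ⨆ i, x.vl i ⊓ beq (x.nm i) (y.nm j) := by
  cases x; cases y; rfl

theorem bmem_def (x y : BName B) : bmem x y = ⨆ i, y.vl i ⊓ beq x (y.nm i) := by
  cases y; rfl

theorem beq_refl (x : BName B) : beq x x = ⊤ := by
  induction x with
  | mk ι a p ih =>
    rw [beq]
    refine eq_top_iff.2 (le_inf ?_ ?_) <;>
    · refine le_iInf fun i => ?_
      rw [le_himp_iff, top_inf_eq]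
      refine le_iSup_of_le i ?_
      rw [ih, inf_top_eq]

theorem beq_symm (x y : BName B) : beq x y = beq y x := by
  induction x generalizing y with
  | mk ι a p ih =>
    cases y with
    | mk κ b q =>
      rw [beq, beq, inf_comm]
      congr 1
      · refine iInf_congr fun j => ?_
        congr 1
        exact iSup_congr fun i => by rw [ih]
      · refine iInf_congr fun j => ?_
        congr 1
        exact iSup_congr fun i => by rw [ih]

theorem beq_apply_left (x y : BName B) (i : x.ix) :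
    beq x y ⊓ x.vl i ≤ ⨆ j, y.vl j ⊓ beq (x.nm i) (y.nm j) := by
  rw [beq_def]
  refine le_trans (inf_le_inf_right _ (inf_le_left.trans (iInf_le _ i))) ?_
  exact himp_inf_le

theorem beq_apply_right (x y : BName B) (j : y.ix) :
    beq x y ⊓ y.vl j ≤ ⨆ i, x.vl i ⊓ beq (x.nm i) (y.nm j) := by
  rw [beq_def]
  refine le_trans (inf_le_inf_right _ (inf_le_right.trans (iInf_le _ j))) ?_
  exact himp_inf_le

theorem beq_trans (x y z : BName B) : beq x y ⊓ beq y z ≤ beq x z := by
  induction x generalizing y z with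
  | mk ι a p ih =>
    rw [beq_def (mk ι a p) z]
    refine le_inf (le_iInf fun i => ?_) (le_iInf fun k => ?_)
    · rw [le_himp_iff]
      have h1 := beq_apply_left (mk ι a p) y i
      calc beq (mk ι a p) y ⊓ beq y z ⊓ (mk ι a p).vl i
          ≤ (⨆ j, y.vl j ⊓ beq (a i) (y.nm j)) ⊓ beq y z := by
            refine le_inf (le_trans ?_ h1) (inf_le_left.trans inf_le_right)
            exact inf_le_inf_right _ inf_le_left
        _ ≤ _ := by
            rw [iSup_inf_eq]
            refine iSup_le fun j => ?_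
            calc y.vl j ⊓ beq (a i) (y.nm j) ⊓ beq y z
                ≤ beq (a i) (y.nm j) ⊓ (beq y z ⊓ y.vl j) := by
                  refine le_inf (inf_le_left.trans inf_le_right)
                    (le_inf inf_le_right (inf_le_left.trans inf_le_left))
              _ ≤ beq (a i) (y.nm j) ⊓ ⨆ k, z.vl k ⊓ beq (y.nm j) (z.nm k) :=
                  inf_le_inf_left _ (beq_apply_left y z j)
              _ ≤ _ := by
                  rw [inf_iSup_eq]
                  refine iSup_le fun k => le_iSup_of_le k ?_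
                  refine le_inf (inf_le_right.trans inf_le_left) ?_
                  exact le_trans (le_inf inf_le_left (inf_le_right.trans inf_le_right))
                    (ih i (y.nm j) (z.nm k))
    · rw [le_himp_iff]
      have h1 := beq_apply_right y z k
      calc beq (mk ι a p) y ⊓ beq y z ⊓ z.vl k
          ≤ beq (mk ι a p) y ⊓ ⨆ j, y.vl j ⊓ beq (y.nm j) (z.nm k) := by
            refine le_inf (inf_le_left.trans inf_le_left) (le_trans ?_ h1)
            exact inf_le_inf_right _ inf_le_right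
        _ ≤ _ := by
            rw [inf_iSup_eq]
            refine iSup_le fun j => ?_
            calc beq (mk ι a p) y ⊓ (y.vl j ⊓ beq (y.nm j) (z.nm k))
                ≤ (beq (mk ι a p) y ⊓ y.vl j) ⊓ beq (y.nm j) (z.nm k) := by
                  rw [inf_assoc]
              _ ≤ (⨆ i, (mk ι a p).vl i ⊓ beq ((mk ι a p).nm i) (y.nm j)) ⊓
                    beq (y.nm j) (z.nm k) := inf_le_inf_right _ (beq_apply_right _ y j)
              _ ≤ _ := by
                  rw [iSup_inf_eq]
                  refine iSup_le fun i => le_iSup_of_le i ?_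
                  refine le_inf (inf_le_left.trans inf_le_left) ?_
                  exact le_trans (le_inf (inf_le_left.trans inf_le_right) inf_le_right)
                    (ih i (y.nm j) (z.nm k))

theorem vl_le_bmem (y : BName B) (i : y.ix) : y.vl i ≤ bmem (y.nm i) y := by
  rw [bmem_def]
  refine le_iSup_of_le i ?_
  rw [beq_refl, inf_top_eq]

theorem bmem_congr_left (x x' y : BName B) : beq x x' ⊓ bmem x y ≤ bmem x' y := by
  rw [bmem_def, bmem_def, inf_iSup_eq]
  refine iSup_mono fun i => ?_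
  refine le_inf (inf_le_right.trans inf_le_left) ?_
  refine le_trans ?_ (beq_trans x' x (y.nm i))
  rw [beq_symm x' x]
  exact inf_le_inf_left _ inf_le_right

theorem bmem_congr_right (x y y' : BName B) : beq y y' ⊓ bmem x y ≤ bmem x y' := by
  rw [bmem_def x y, inf_iSup_eq]
  refine iSup_le fun j => ?_
  calc beq y y' ⊓ (y.vl j ⊓ beq x (y.nm j))
      = (beq y y' ⊓ y.vl j) ⊓ beq x (y.nm j) := by rw [inf_assoc]
    _ ≤ (⨆ k, y'.vl k ⊓ beq (y.nm j) (y'.nm k)) ⊓ beq x (y.nm j) :=
        inf_le_inf_right _ (beq_apply_left y y' j)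
    _ ≤ bmem x y' := by
        rw [iSup_inf_eq, bmem_def]
        refine iSup_mono fun k => le_inf (inf_le_left.trans inf_le_left) ?_
        refine le_trans ?_ (beq_trans x (y.nm j) (y'.nm k))
        exact le_inf inf_le_right (inf_le_left.trans inf_le_right)

end BName

open BName

@[simp] theorem VB_mem (x y : BName B) : (VB B).mem x y = bmem x y := rfl
@[simp] theorem VB_eq (x y : BName B) : (VB B).eq x y = beq x y := rfl

/-! ## Extensional predicates -/

/-- `φ` respects equality of names. -/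
def Ext (φ : BName B → B) : Prop := ∀ x y, beq x y ⊓ φ x ≤ φ y

namespace Ext

variable {φ ψ : BName B → B}

theorem of_le (h : Ext φ) {Γ : B} {x y : BName B} (hxy : Γ ≤ beq x y) (hx : Γ ≤ φ x) : Γ ≤ φ y :=
  (le_inf hxy hx).trans (h x y)

theorem of_le' (h : Ext φ) {Γ : B} {x y : BName B} (hxy : Γ ≤ beq y x) (hx : Γ ≤ φ x) : Γ ≤ φ y :=
  h.of_le (by rwa [beq_symm]) hx

theorem symm_le (h : Ext φ) (x y : BName B) : beq x y ⊓ φ y ≤ φ x := by
  rw [beq_symm]; exact h y x

theorem const (c : B) : Ext (fun _ : BName B => c) := fun _ _ => inf_le_right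

theorem inf (h : Ext φ) (h' : Ext ψ) : Ext (fun x => φ x ⊓ ψ x) := fun x y =>
  le_inf ((inf_le_inf_left _ inf_le_left).trans (h x y))
    ((inf_le_inf_left _ inf_le_right).trans (h' x y))

theorem sup (h : Ext φ) (h' : Ext ψ) : Ext (fun x => φ x ⊔ ψ x) := fun x y => by
  rw [inf_sup_left]
  exact sup_le_sup (h x y) (h' x y)

theorem himp (h : Ext φ) (h' : Ext ψ) : Ext (fun x => φ x ⇨ ψ x) := fun x y => by
  rw [le_himp_iff]
  have h1 : beq x y ⊓ (φ x ⇨ ψ x) ⊓ φ y ≤ φ x :=
    le_trans (le_inf (inf_le_left.trans inf_le_left) inf_le_right) (h.symm_le x y)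
  have h2 : beq x y ⊓ (φ x ⇨ ψ x) ⊓ φ y ≤ ψ x :=
    le_trans (le_inf (inf_le_left.trans inf_le_right) h1) himp_inf_le
  exact le_trans (le_inf (inf_le_left.trans inf_le_left) h2) (h' x y)

theorem compl (h : Ext φ) : Ext (fun x => (φ x)ᶜ) := by
  have := h.himp (const (B := B) ⊥)
  simpa only [himp_bot] using this

theorem bihimp (h : Ext φ) (h' : Ext ψ) : Ext (fun x => φ x ⇔ ψ x) :=
  (h'.himp h).inf (h.himp h')

theorem iInf {ι : Sort*} {φ : ι → BName B → B} (h : ∀ i, Ext (φ i)) :
    Ext (fun x => ⨅ i, φ i x) := fun x y =>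
  le_iInf fun i => (inf_le_inf_left _ (iInf_le _ i)).trans (h i x y)

theorem iSup {ι : Sort*} {φ : ι → BName B → B} (h : ∀ i, Ext (φ i)) :
    Ext (fun x => ⨆ i, φ i x) := fun x y => by
  rw [inf_iSup_eq]
  exact iSup_mono fun i => h i x y

end Ext

theorem ext_mem_left (y : BName B) : Ext (fun x => bmem x y) := fun x x' => bmem_congr_left x x' y
theorem ext_mem_right (x : BName B) : Ext (fun y => bmem x y) := fun y y' => bmem_congr_right x y y'
theorem ext_eq_left (y : BName B) : Ext (fun x => beq x y) := fun x x' => by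
  rw [beq_symm x x']; exact beq_trans x' x y
theorem ext_eq_right (x : BName B) : Ext (fun y => beq x y) := fun y y' => by
  rw [inf_comm]; exact beq_trans x y y'
theorem ext_VBmem_left (y : BName B) : Ext (fun x => (VB B).mem x y) := ext_mem_left y
theorem ext_VBmem_right (x : BName B) : Ext (fun y => (VB B).mem x y) := ext_mem_right x
theorem ext_VBeq_left (y : BName B) : Ext (fun x => (VB B).eq x y) := ext_eq_left y
theorem ext_VBeq_right (x : BName B) : Ext (fun y => (VB B).eq x y) := ext_eq_right x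

/-- Bounded quantifiers. -/
theorem iSup_mem {φ : BName B → B} (h : Ext φ) (x : BName B) :
    (⨆ z, bmem z x ⊓ φ z) = ⨆ i, x.vl i ⊓ φ (x.nm i) := by
  refine le_antisymm (iSup_le fun z => ?_) (iSup_le fun i => ?_)
  · rw [bmem_def, iSup_inf_eq]
    refine iSup_mono fun i => ?_
    rw [inf_assoc]
    exact inf_le_inf_left _ (h z (x.nm i))
  · exact le_iSup_of_le (x.nm i) (inf_le_inf_right _ (vl_le_bmem x i))

theorem iInf_mem {φ : BName B → B} (h : Ext φ) (x : BName B) :
    (⨅ z, bmem z x ⇨ φ z) = ⨅ i, x.vl i ⇨ φ (x.nm i) := by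
  refine le_antisymm (le_iInf fun i => ?_) (le_iInf fun z => ?_)
  · exact (iInf_le _ (x.nm i)).trans (himp_le_himp_right (vl_le_bmem x i))
  · rw [le_himp_iff, bmem_def, inf_iSup_eq]
    refine iSup_le fun i => ?_
    have h1 : (⨅ i, x.vl i ⇨ φ (x.nm i)) ⊓ (x.vl i ⊓ beq z (x.nm i)) ≤ φ (x.nm i) :=
      le_trans (le_inf (inf_le_left.trans (iInf_le _ i)) (inf_le_right.trans inf_le_left))
        himp_inf_le
    exact le_trans (le_inf (inf_le_right.trans inf_le_right) h1) (h.symm_le z (x.nm i))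

theorem le_iInf_mem {φ : BName B → B} (h : Ext φ) {x : BName B} {Γ : B} :
    (Γ ≤ ⨅ z, bmem z x ⇨ φ z) ↔ ∀ i, Γ ⊓ x.vl i ≤ φ (x.nm i) := by
  rw [iInf_mem h]
  simp only [le_iInf_iff, le_himp_iff]

/-- Use of a universal statement. -/
theorem iInf_himp_apply {ι : Sort*} {φ ψ : ι → B} {Γ : B} (h : Γ ≤ ⨅ z, φ z ⇨ ψ z) (z : ι)
    {Δ : B} (hΔ : Δ ≤ Γ) (hz : Δ ≤ φ z) : Δ ≤ ψ z :=
  le_trans (le_inf (hΔ.trans (h.trans (iInf_le _ z))) hz) himp_inf_le

/-! ## Subsets and extensionality -/

theorem sub_apply {Γ : B} {x y : BName B} (h : Γ ≤ (VB B).sub x y) (z : BName B) {Δ : B}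
    (hΔ : Δ ≤ Γ) (hz : Δ ≤ bmem z x) : Δ ≤ bmem z y := iInf_himp_apply h z hΔ hz

theorem le_sub_iff {Γ : B} {x y : BName B} :
    Γ ≤ (VB B).sub x y ↔ ∀ i, Γ ⊓ x.vl i ≤ bmem (x.nm i) y := le_iInf_mem (ext_mem_left y)

theorem sub_inf_sub_le (x y : BName B) : (VB B).sub x y ⊓ (VB B).sub y x ≤ beq x y := by
  rw [beq_def]
  refine le_inf (le_iInf fun i => ?_) (le_iInf fun j => ?_)
  · rw [le_himp_iff]
    have := sub_apply (Γ := (VB B).sub x y) le_rfl (x.nm i)
      (Δ := (VB B).sub x y ⊓ (VB B).sub y x ⊓ x.vl i) (inf_le_left.trans inf_le_left)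
      (inf_le_right.trans (vl_le_bmem x i))
    rwa [bmem_def] at this
  · rw [le_himp_iff]
    have := sub_apply (Γ := (VB B).sub y x) le_rfl (y.nm j)
      (Δ := (VB B).sub x y ⊓ (VB B).sub y x ⊓ y.vl j) (inf_le_left.trans inf_le_right)
      (inf_le_right.trans (vl_le_bmem y j))
    rw [bmem_def] at this
    refine this.trans (iSup_mono fun i => ?_)
    rw [beq_symm]

theorem beq_le_sub (x y : BName B) : beq x y ≤ (VB B).sub x y :=
  le_iInf fun z => by rw [le_himp_iff]; exact bmem_congr_right z x y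

theorem beq_le_sub' (x y : BName B) : beq x y ≤ (VB B).sub y x := by
  rw [beq_symm]; exact beq_le_sub y x

theorem beq_eq_iInf (x y : BName B) : beq x y = ⨅ z, bmem z x ⇔ bmem z y := by
  refine le_antisymm (le_iInf fun z => le_inf ?_ ?_) ?_
  · rw [le_himp_iff]; exact (ext_mem_right z).symm_le x y
  · rw [le_himp_iff]; exact bmem_congr_right z x y
  · refine le_trans (le_inf ?_ ?_) (sub_inf_sub_le x y)
    · exact iInf_mono fun z => inf_le_right
    · exact iInf_mono fun z => inf_le_left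

theorem le_beq_iff {Γ : B} {x y : BName B} :
    Γ ≤ beq x y ↔ ∀ z, Γ ⊓ bmem z x = Γ ⊓ bmem z y := by
  constructor
  · intro h z
    refine le_antisymm (le_inf inf_le_left ?_) (le_inf inf_le_left ?_)
    · exact le_trans (inf_le_inf_right _ h) (bmem_congr_right z x y)
    · exact le_trans (inf_le_inf_right _ h) ((ext_mem_right z).symm_le x y)
  · intro h
    rw [beq_eq_iInf]
    refine le_iInf fun z => le_inf ?_ ?_
    · rw [le_himp_iff, ← h z]; exact inf_le_right
    · rw [le_himp_iff, h z]; exact inf_le_right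

theorem le_bihimp_iff' {Γ a b : B} : Γ ≤ a ⇔ b ↔ Γ ⊓ a = Γ ⊓ b := by
  constructor
  · intro h
    refine le_antisymm (le_inf inf_le_left ?_) (le_inf inf_le_left ?_)
    · exact le_trans (inf_le_inf_right _ (h.trans inf_le_right)) himp_inf_le
    · exact le_trans (inf_le_inf_right _ (h.trans inf_le_left)) himp_inf_le
  · intro h
    refine le_inf ?_ ?_
    · rw [le_himp_iff, ← h]; exact inf_le_right
    · rw [le_himp_iff, h]; exact inf_le_right

/-! ## Mixing and fullness -/

theorem mix {ι : Type u} (a : ι → B) (f : ι → BName B)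
    (h : ∀ i j, a i ⊓ a j ≤ beq (f i) (f j)) : ∃ τ, ∀ i, a i ≤ beq τ (f i) := by
  refine ⟨mk (Σ i, (f i).ix) (fun p => (f p.1).nm p.2) (fun p => a p.1 ⊓ (f p.1).vl p.2), ?_⟩
  intro i
  refine le_trans (le_inf ?_ ?_) (sub_inf_sub_le _ _)
  · rw [le_sub_iff]
    rintro ⟨j, s⟩
    change a i ⊓ (a j ⊓ (f j).vl s) ≤ bmem ((f j).nm s) (f i)
    refine (ext_mem_right _).of_le' (x := f j) ?_ ?_
    · exact le_trans (le_inf inf_le_left (inf_le_right.trans inf_le_left)) (h i j)
    · exact (inf_le_right.trans inf_le_right).trans (vl_le_bmem _ _)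
  · rw [le_sub_iff]
    intro t
    rw [bmem_def]
    refine le_iSup_of_le ⟨i, t⟩ ?_
    change a i ⊓ (f i).vl t ≤ a i ⊓ (f i).vl t ⊓ beq ((f i).nm t) ((f i).nm t)
    rw [beq_refl, inf_top_eq]

/-- Fullness (maximum principle). -/
theorem exists_max {φ : BName B → B} (h : Ext φ) : ∃ τ, (⨆ x, φ x) = φ τ := by
  classical
  let f : B → BName B := fun b => if hb : ∃ x, φ x = b then hb.choose else mk PEmpty PEmpty.elim PEmpty.elim
  let r : B → B → Prop := WellOrderingRel
  let a : B → B := fun b => φ (f b) ⊓ (⨆ c : {c // r c b}, φ (f c.1))ᶜ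
  have hdisj : ∀ b c, r b c → a b ⊓ a c ≤ ⊥ := by
    intro b c hbc
    have h1 : a b ≤ ⨆ d : {d // r d c}, φ (f d.1) := inf_le_left.trans (le_iSup_of_le ⟨b, hbc⟩ le_rfl)
    have h2 : a c ≤ (⨆ d : {d // r d c}, φ (f d.1))ᶜ := inf_le_right
    exact le_trans (inf_le_inf h1 h2) (by rw [inf_compl_self])
  obtain ⟨τ, hτ⟩ := mix a f (by
    intro b c
    rcases trichotomous_of WellOrderingRel b c with hbc | rfl | hbc
    · exact (hdisj b c hbc).trans bot_le
    · rw [beq_refl]; exact le_top
    · rw [inf_comm]; exact (hdisj c b hbc).trans bot_le)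
  have key : ∀ b, φ (f b) ≤ φ τ := by
    intro b
    induction b using (IsWellFounded.wf (r := (WellOrderingRel : B → B → Prop))).induction with
    | _ b ih =>
      have h1 : φ (f b) ≤ a b ⊔ ⨆ c : {c // r c b}, φ (f c.1) := by
        change _ ≤ φ (f b) ⊓ (⨆ c : {c // r c b}, φ (f c.1))ᶜ ⊔ ⨆ c : {c // r c b}, φ (f c.1)
        rw [sup_inf_right, sup_comm (_ᶜ), sup_compl_eq_top, inf_top_eq]
        exact le_sup_left
      refine h1.trans (sup_le ?_ (iSup_le fun c => ih c.1 c.2))
      exact h.of_le' (hτ b) inf_le_left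
  refine ⟨τ, le_antisymm (iSup_le fun x => ?_) (le_iSup φ τ)⟩
  have hx : φ (f (φ x)) = φ x := by
    have hb : ∃ y, φ y = φ x := ⟨x, rfl⟩
    simp only [f, dif_pos hb]
    exact hb.choose_spec
  rw [← hx]
  exact key _

theorem exists_wit {φ : BName B → B} (h : Ext φ) {Γ : B} (hΓ : Γ ≤ ⨆ x, φ x) : ∃ τ, Γ ≤ φ τ := by
  obtain ⟨τ, hτ⟩ := exists_max h
  exact ⟨τ, hτ ▸ hΓ⟩

end Pool.Agent.Lib.MP_100a6c_lc
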