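import Pool.Agent.Lib.MP_100a6c_lc.Base

/-!
# Constructions of names: separation, pairs, families, check names; extensionality of the formulas
-/

universe u

open scoped symmDiff

namespace Pool.Agent.Lib.MP_100a6c_lc

open BName

variable {B : Type u} [CompleteBooleanAlgebra B]

/-! ## Ext for the formulas -/

theorem ext_sub_left (y : BName B) : Ext (fun x => (VB B).sub x y) :=
  Ext.iInf fun z => (ext_mem_right z).himp (Ext.const _)
theorem ext_sub_right (x : BName B) : Ext (fun y => (VB B).sub x y) :=
  Ext.iInf fun z => (Ext.const _).himp (ext_mem_right z)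
theorem ext_isTrans : Ext (fun x : BName B => (VB B).isTrans x) :=
  Ext.iInf fun y => (ext_mem_right y).himp (ext_sub_right y)
theorem ext_isOrd : Ext (fun x : BName B => (VB B).isOrd x) :=
  ext_isTrans.inf (Ext.iInf fun y => (ext_mem_right y).himp (Ext.const _))

/-! ## Names from families -/

/-- The empty name. -/
def nil : BName B := mk PEmpty PEmpty.elim PEmpty.elim

theorem mem_nil (x : BName B) : bmem x nil = ⊥ := by
  rw [bmem_def]; exact iSup_of_empty (ι := PEmpty) _

theorem mem_mk {ι : Type u} (f : ι → BName B) (v : ι → B) (z : BName B) :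
    bmem z (mk ι f v) = ⨆ i, v i ⊓ beq z (f i) := rfl

/-- Separation: `{z ∈ x : φ z}`. -/
def sepn (x : BName B) (φ : BName B → B) : BName B :=
  mk x.ix x.nm fun i => x.vl i ⊓ φ (x.nm i)

theorem mem_sepn {φ : BName B → B} (h : Ext φ) (x z : BName B) :
    bmem z (sepn x φ) = bmem z x ⊓ φ z := by
  change (⨆ i, (x.vl i ⊓ φ (x.nm i)) ⊓ beq z (x.nm i)) = _
  rw [bmem_def, iSup_inf_eq]
  refine iSup_congr fun i => le_antisymm ?_ ?_
  · refine le_inf (le_inf (inf_le_left.trans inf_le_left) inf_le_right) ?_
    exact h.of_le' (x := x.nm i) inf_le_right (inf_le_left.trans inf_le_right)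
  · refine le_inf (le_inf (inf_le_left.trans inf_le_left) ?_) (inf_le_left.trans inf_le_right)
    exact h.of_le (x := z) (inf_le_left.trans inf_le_right) inf_le_right

theorem sepn_sub (x : BName B) (φ : BName B → B) : (VB B).sub (sepn x φ) x = ⊤ := by
  refine eq_top_iff.2 (le_sub_iff.2 fun i => ?_)
  exact (inf_le_right.trans inf_le_left).trans (vl_le_bmem x i)

/-- Unordered pair. -/
def upr (a b : BName B) : BName B := mk (ULift Bool) (fun t => if t.down then a else b) fun _ => ⊤

theorem mem_upr (z a b : BName B) : bmem z (upr a b) = beq z a ⊔ beq z b := by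
  change (⨆ t : ULift Bool, ⊤ ⊓ beq z (if t.down then a else b)) = _
  refine le_antisymm (iSup_le ?_) (sup_le ?_ ?_)
  · rintro ⟨t⟩
    rw [top_inf_eq]
    cases t <;> simp
  · exact le_iSup_of_le ⟨true⟩ (by simp)
  · exact le_iSup_of_le ⟨false⟩ (by simp)

theorem isUPair_eq (p a b : BName B) : (VB B).isUPair p a b = beq p (upr a b) := by
  rw [beq_eq_iInf]
  refine iInf_congr fun z => ?_
  rw [mem_upr]; rfl

theorem beq_upr (a b c d : BName B) :
    beq (upr a b) (upr c d) = (beq a c ⊓ beq b d) ⊔ (beq a d ⊓ beq b c) := by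
  refine le_antisymm ?_ (sup_le ?_ ?_)
  · have hz : ∀ z, beq (upr a b) (upr c d) ⊓ (beq z a ⊔ beq z b) ≤ beq z c ⊔ beq z d := by
      intro z
      rw [← mem_upr, ← mem_upr]; exact bmem_congr_right z _ _
    have hz' : ∀ z, beq (upr a b) (upr c d) ⊓ (beq z c ⊔ beq z d) ≤ beq z a ⊔ beq z b := by
      intro z
      rw [← mem_upr, ← mem_upr]; exact (ext_mem_right z).symm_le _ _
    have ha : beq (upr a b) (upr c d) ≤ beq a c ⊔ beq a d := by
      have := hz a
      rwa [beq_refl, top_sup_eq, inf_top_eq] at this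
    have hb : beq (upr a b) (upr c d) ≤ beq b c ⊔ beq b d := by
      have := hz b
      rwa [beq_refl, sup_top_eq, inf_top_eq] at this
    have hc : beq (upr a b) (upr c d) ≤ beq c a ⊔ beq c b := by
      have := hz' c
      rwa [beq_refl, top_sup_eq, inf_top_eq] at this
    have hd : beq (upr a b) (upr c d) ≤ beq d a ⊔ beq d b := by
      have := hz' d
      rwa [beq_refl, sup_top_eq, inf_top_eq] at this
    set e := beq (upr a b) (upr c d)
    rw [beq_symm c a, beq_symm c b] at hc
    rw [beq_symm d a, beq_symm d b] at hd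
    have h1 : e ≤ (beq a c ⊔ beq a d) ⊓ (beq b c ⊔ beq b d) ⊓ (beq a c ⊔ beq b c) ⊓
      (beq a d ⊔ beq b d) := le_inf (le_inf (le_inf ha hb) hc) hd
    refine h1.trans ?_
    have key : (beq a c ⊔ beq a d) ⊓ (beq b c ⊔ beq b d) ⊓ (beq a c ⊔ beq b c) ⊓
      (beq a d ⊔ beq b d) ≤ (beq a c ⊓ beq b d) ⊔ (beq a d ⊓ beq b c) := by
      generalize beq a c = s, beq a d = t, beq b c = x, beq b d = y
      have e1 : (s ⊔ t) ⊓ (x ⊔ y) ⊓ (s ⊔ x) ⊓ (t ⊔ y) = ((s ⊔ t) ⊓ (s ⊔ x)) ⊓ ((y ⊔ x) ⊓ (y ⊔ t)) := by
        rw [sup_comm x y, sup_comm t y]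
        ac_rfl
      rw [e1, ← sup_inf_left, ← sup_inf_left, inf_sup_left, inf_sup_right, inf_sup_right]
      refine sup_le (sup_le le_sup_left ?_) (sup_le ?_ ?_)
      · refine le_sup_of_le_right (inf_le_left)
      · refine le_sup_of_le_right ?_
        rw [inf_comm x t]; exact inf_le_right
      · refine le_sup_of_le_right inf_le_left
    exact key
  · refine le_trans (le_inf ?_ ?_) (sub_inf_sub_le _ _)
    · refine le_iInf fun z => ?_
      rw [le_himp_iff]
      rw [VB_mem, VB_mem, mem_upr, mem_upr, inf_sup_left]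
      refine sup_le_sup ?_ ?_
      · exact (ext_eq_right z).of_le (inf_le_left.trans inf_le_left) inf_le_right
      · exact (ext_eq_right z).of_le (inf_le_left.trans inf_le_right) inf_le_right
    · refine le_iInf fun z => ?_
      rw [le_himp_iff]
      rw [VB_mem, VB_mem, mem_upr, mem_upr, inf_sup_left]
      refine sup_le_sup ?_ ?_
      · exact (ext_eq_right z).of_le' (inf_le_left.trans inf_le_left) inf_le_right
      · exact (ext_eq_right z).of_le' (inf_le_left.trans inf_le_right) inf_le_right
  · refine le_trans (le_inf ?_ ?_) (sub_inf_sub_le _ _)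
    · refine le_iInf fun z => ?_
      rw [le_himp_iff]
      rw [VB_mem, VB_mem, mem_upr, mem_upr, inf_sup_left, sup_comm (beq z c)]
      refine sup_le_sup ?_ ?_
      · exact (ext_eq_right z).of_le (inf_le_left.trans inf_le_left) inf_le_right
      · exact (ext_eq_right z).of_le (inf_le_left.trans inf_le_right) inf_le_right
    · refine le_iInf fun z => ?_
      rw [le_himp_iff]
      rw [VB_mem, VB_mem, mem_upr, mem_upr, inf_sup_left, sup_comm (beq z a)]
      refine sup_le_sup ?_ ?_
      · exact (ext_eq_right z).of_le' (inf_le_left.trans inf_le_right) inf_le_right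
      · exact (ext_eq_right z).of_le' (inf_le_left.trans inf_le_left) inf_le_right

/-- Ordered pair. -/
def opr (a b : BName B) : BName B := upr (upr a a) (upr a b)

theorem beq_opr (a b c d : BName B) : beq (opr a b) (opr c d) = beq a c ⊓ beq b d := by
  unfold opr
  rw [beq_upr, beq_upr, beq_upr, beq_upr, beq_upr]
  have h1 : beq a c ⊓ beq a d ⊓ beq b c ≤ beq b d := by
    -- b = c = a = d
    have e1 : beq a c ⊓ beq a d ⊓ beq b c ≤ beq b c := inf_le_right
    have e2 : beq a c ⊓ beq a d ⊓ beq b c ≤ beq c a :=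
      (inf_le_left.trans inf_le_left).trans (beq_symm a c).le
    have e3 : beq a c ⊓ beq a d ⊓ beq b c ≤ beq a d := inf_le_left.trans inf_le_right
    exact le_trans (le_inf (le_trans (le_inf e1 e2) (beq_trans _ _ _)) e3) (beq_trans _ _ _)
  refine le_antisymm (sup_le ?_ ?_) ?_
  · refine le_inf ?_ ?_
    · exact inf_le_left.trans (sup_le inf_le_left inf_le_left)
    · rw [inf_sup_left]
      refine sup_le (inf_le_right.trans inf_le_right) ?_
      refine le_trans ?_ h1
      refine le_inf (le_inf ?_ ?_) ?_
      · exact inf_le_left.trans (sup_le inf_le_left inf_le_left)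
      · exact inf_le_right.trans inf_le_left
      · exact inf_le_right.trans inf_le_right
  · refine le_inf ?_ ?_
    · exact inf_le_left.trans (sup_le inf_le_left inf_le_right)
    · have h2 : (beq a c ⊓ beq a d ⊔ beq a d ⊓ beq a c) ⊓ (beq a c ⊓ beq b c ⊔ beq a c ⊓ beq b c) ≤
        beq a c ⊓ beq a d ⊓ beq b c := by
        refine le_inf (le_inf ?_ ?_) ?_
        · exact inf_le_left.trans (sup_le inf_le_left inf_le_right)
        · exact inf_le_left.trans (sup_le inf_le_right inf_le_left)
        · exact inf_le_right.trans (sup_le inf_le_right inf_le_right)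
      exact h2.trans h1
  · refine le_sup_of_le_left ?_
    refine le_inf (le_sup_of_le_left (le_inf inf_le_left inf_le_left)) (le_sup_of_le_left le_rfl)

theorem ext_opr_left (b : BName B) {φ : BName B → B} (h : Ext φ) : Ext (fun a => φ (opr a b)) :=
  fun x y => h.of_le (x := opr x b) (by rw [beq_opr, beq_refl, inf_top_eq]; exact inf_le_left)
    inf_le_right

theorem ext_opr_right (a : BName B) {φ : BName B → B} (h : Ext φ) : Ext (fun b => φ (opr a b)) :=
  fun x y => h.of_le (x := opr a x) (by rw [beq_opr, beq_refl, top_inf_eq]; exact inf_le_left)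
    inf_le_right

theorem isPair_eq (p a b : BName B) : (VB B).isPair p a b = beq p (opr a b) := by
  unfold Str.isPair
  simp only [isUPair_eq]
  refine le_antisymm (iSup_le fun s => iSup_le fun t => ?_) ?_
  · refine (ext_eq_right p).of_le (x := upr s t) ?_ inf_le_right
    refine le_trans ?_ (beq_upr s t (upr a a) (upr a b)).ge
    exact le_sup_of_le_left (le_inf (inf_le_left.trans inf_le_left) (inf_le_left.trans inf_le_right))
  · refine le_iSup_of_le (upr a a) (le_iSup_of_le (upr a b) ?_)
    rw [beq_refl, beq_refl, top_inf_eq, top_inf_eq]; rfl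

theorem rel_eq (f a b : BName B) : (VB B).rel f a b = bmem (opr a b) f := by
  unfold Str.rel
  simp only [isPair_eq]
  change (⨆ p, beq p (opr a b) ⊓ bmem p f) = _
  refine le_antisymm (iSup_le fun p => bmem_congr_left p _ f) ?_
  refine le_iSup_of_le (opr a b) ?_
  rw [beq_refl, top_inf_eq]

theorem ext_rel_fst (a b : BName B) : Ext (fun f => (VB B).rel f a b) := by
  simp only [rel_eq]; exact ext_mem_right _
theorem ext_rel_snd (f b : BName B) : Ext (fun a => (VB B).rel f a b) := by
  simp only [rel_eq]; exact ext_opr_left b (ext_mem_left f)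
theorem ext_rel_trd (f a : BName B) : Ext (fun b => (VB B).rel f a b) := by
  simp only [rel_eq]; exact ext_opr_right a (ext_mem_left f)
theorem ext_isPair_fst (a b : BName B) : Ext (fun f => (VB B).isPair f a b) := by
  simp only [isPair_eq]; exact ext_eq_left _
theorem ext_isPair_snd (f b : BName B) : Ext (fun a => (VB B).isPair f a b) := by
  simp only [isPair_eq]; exact ext_opr_left b (ext_eq_right f)
theorem ext_isPair_trd (f a : BName B) : Ext (fun b => (VB B).isPair f a b) := by
  simp only [isPair_eq]; exact ext_opr_right a (ext_eq_right f)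

theorem ext_leCard_left (y : BName B) : Ext (fun x => (VB B).leCard x y) :=
  Ext.iSup fun f => (Ext.const _).inf (Ext.iInf fun a => (ext_mem_right a).himp (Ext.const _))
theorem ext_leCard_right (x : BName B) : Ext (fun y => (VB B).leCard x y) :=
  Ext.iSup fun f => (Ext.const _).inf (Ext.iInf fun a => (Ext.const _).himp
    (Ext.iSup fun b => (ext_mem_right b).inf (Ext.const _)))

theorem ext_isFun_fst (a b : BName B) : Ext (fun s => (VB B).isFun s a b) :=
  ((Ext.iInf fun p => (ext_mem_right p).himp (Ext.const _)).inf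
    (Ext.iInf fun x => (Ext.const _).himp (Ext.iSup fun y => ext_rel_fst x y))).inf
    (Ext.iInf fun x => Ext.iInf fun y => Ext.iInf fun y' =>
      ((ext_rel_fst x y).inf (ext_rel_fst x y')).himp (Ext.const _))
theorem ext_isFun_snd (s b : BName B) : Ext (fun a => (VB B).isFun s a b) :=
  ((Ext.iInf fun p => (Ext.const _).himp (Ext.iSup fun x => Ext.iSup fun y =>
      ((ext_mem_right x).inf (Ext.const _)).inf (Ext.const _))).inf
    (Ext.iInf fun x => (ext_mem_right x).himp (Ext.const _))).inf (Ext.const _)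
theorem ext_isFun_trd (s a : BName B) : Ext (fun b => (VB B).isFun s a b) :=
  ((Ext.iInf fun p => (Ext.const _).himp (Ext.iSup fun x => Ext.iSup fun y =>
      ((Ext.const _).inf (ext_mem_right y)).inf (Ext.const _))).inf (Ext.const _)).inf (Ext.const _)

/-! ## Relations from families -/

/-- The set of pairs `(f i, g i)`. -/
def relFam {ι : Type u} (f g : ι → BName B) (v : ι → B) : BName B := mk ι (fun i => opr (f i) (g i)) v

theorem rel_relFam {ι : Type u} (f g : ι → BName B) (v : ι → B) (a b : BName B) :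
    (VB B).rel (relFam f g v) a b = ⨆ i, v i ⊓ (beq a (f i) ⊓ beq b (g i)) := by
  rw [rel_eq]
  change (⨆ i, v i ⊓ beq (opr a b) (opr (f i) (g i))) = _
  simp only [beq_opr]

/-- The union of the family `f i` with weights `v i`. -/
def uni {ι : Type u} (f : ι → BName B) (v : ι → B) : BName B :=
  mk (Σ i, (f i).ix) (fun p => (f p.1).nm p.2) (fun p => v p.1 ⊓ (f p.1).vl p.2)

theorem mem_uni {ι : Type u} (f : ι → BName B) (v : ι → B) (z : BName B) :
    bmem z (uni f v) = ⨆ i, v i ⊓ bmem z (f i) := by
  change (⨆ p : Σ i, (f i).ix, (v p.1 ⊓ (f p.1).vl p.2) ⊓ beq z ((f p.1).nm p.2)) = _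
  rw [iSup_sigma]
  refine iSup_congr fun i => ?_
  rw [bmem_def, inf_iSup_eq]
  exact iSup_congr fun j => by rw [inf_assoc]

/-- The value of `|x| ≤ |y|` from a `B`-valued functional relation `G` between an index type and
`x`. -/
theorem le_leCard {Y : Type u} {Γ : B} {x y : BName B} (b : Y → BName B) (G : Y → BName B → B)
    (hb : ∀ c c', c ≠ c' → beq (b c) (b c') = ⊥) (hy : ∀ c, Γ ⊓ ⨆ z, G c z ≤ bmem (b c) y)
    (hG : ∀ c, Ext (G c)) (hfun : ∀ c z z', Γ ⊓ (G c z ⊓ G c z') ≤ beq z z')
    (hx : ∀ z, Γ ⊓ bmem z x ≤ ⨆ c, G c z) : Γ ≤ (VB B).leCard x y := by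
  classical
  refine le_iSup_of_le (relFam (ι := Y × x.ix) (fun p => b p.1) (fun p => x.nm p.2)
    (fun p => Γ ⊓ x.vl p.2 ⊓ G p.1 (x.nm p.2))) ?_
  have hrel : ∀ a z, (VB B).rel (relFam (ι := Y × x.ix) (fun p => b p.1) (fun p => x.nm p.2)
    (fun p => Γ ⊓ x.vl p.2 ⊓ G p.1 (x.nm p.2))) a z = ⨆ c, Γ ⊓ (beq a (b c) ⊓ (bmem z x ⊓ G c z)) := by
    intro a z
    rw [rel_relFam, iSup_prod]
    refine iSup_congr fun c => ?_
    rw [bmem_def, iSup_inf_eq, inf_iSup_eq, inf_iSup_eq]
    refine iSup_congr fun j => le_antisymm ?_ ?_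
    · refine le_inf (inf_le_left.trans (inf_le_left.trans inf_le_left)) (le_inf
        (inf_le_right.trans inf_le_left) (le_inf (le_inf
          (inf_le_left.trans (inf_le_left.trans inf_le_right)) (inf_le_right.trans inf_le_right)) ?_))
      exact (hG c).of_le' (x := x.nm j) (inf_le_right.trans inf_le_right)
        (inf_le_left.trans inf_le_right)
    · refine le_inf (le_inf (le_inf inf_le_left ?_) ?_) (le_inf ?_ ?_)
      · exact inf_le_right.trans (inf_le_right.trans (inf_le_left.trans inf_le_left))
      · exact (hG c).of_le (x := z)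
          (inf_le_right.trans (inf_le_right.trans (inf_le_left.trans inf_le_right)))
          (inf_le_right.trans (inf_le_right.trans inf_le_right))
      · exact inf_le_right.trans inf_le_left
      · exact inf_le_right.trans (inf_le_right.trans (inf_le_left.trans inf_le_right))
  refine le_inf (le_iInf fun a => le_iInf fun z => le_iInf fun z' => ?_) (le_iInf fun z => ?_)
  · rw [le_himp_iff, hrel, hrel, iSup_inf_iSup, inf_iSup_eq]
    refine iSup_le fun ⟨c, c'⟩ => ?_
    by_cases hcc : c = c'
    · subst hcc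
      refine le_trans ?_ (hfun c z z')
      refine le_inf inf_le_left (le_inf ?_ ?_)
      · exact inf_le_right.trans (inf_le_left.trans (inf_le_right.trans
          (inf_le_right.trans inf_le_right)))
      · exact inf_le_right.trans (inf_le_right.trans (inf_le_right.trans
          (inf_le_right.trans inf_le_right)))
    · refine le_trans ?_ bot_le
      rw [← hb c c' hcc]
      refine le_trans (le_inf ?_ ?_) (beq_trans (b c) a (b c'))
      · rw [beq_symm]
        exact inf_le_right.trans (inf_le_left.trans (inf_le_right.trans inf_le_left))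
      · exact inf_le_right.trans (inf_le_right.trans (inf_le_right.trans inf_le_left))
  · rw [le_himp_iff]
    have h1 : Γ ⊓ (VB B).mem z x ≤ ⨆ c, Γ ⊓ bmem z x ⊓ G c z := by
      rw [← inf_iSup_eq]
      exact le_inf le_rfl (hx z)
    refine h1.trans (iSup_le fun c => le_iSup_of_le (b c) (le_inf ?_ ?_))
    · refine le_trans ?_ (hy c)
      exact le_inf (inf_le_left.trans inf_le_left) (inf_le_right.trans (le_iSup (G c) z))
    · rw [hrel]
      refine le_iSup_of_le c (le_inf (inf_le_left.trans inf_le_left) (le_inf ?_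
        (le_inf (inf_le_left.trans inf_le_right) inf_le_right)))
      rw [beq_refl]; exact le_top

end Pool.Agent.Lib.MP_100a6c_lc
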