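import Pool.Agent.Lib.MP_100a6c_lc.Base2

/-!
# Check names, representing families
-/

universe u

open scoped symmDiff

namespace Pool.Agent.Lib.MP_100a6c_lc

open BName

variable {B : Type u} [CompleteBooleanAlgebra B]

/-! ## Check names -/

theorem beq_checkP_of_equiv (x y : PSet.{u}) (h : PSet.Equiv x y) :
    beq (checkP x : BName B) (checkP y) = ⊤ := by
  induction x generalizing y with
  | mk α A ih =>
    cases y with
    | mk β D =>
      rw [checkP, checkP, beq]
      refine eq_top_iff.2 (le_inf (le_iInf fun a => ?_) (le_iInf fun b => ?_))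
      · obtain ⟨b, hb⟩ := h.1 a
        rw [le_himp_iff, top_inf_eq]
        refine le_iSup_of_le b ?_
        rw [ih a _ hb, inf_top_eq]
      · obtain ⟨a, ha⟩ := h.2 b
        rw [le_himp_iff, top_inf_eq]
        refine le_iSup_of_le a ?_
        rw [ih a _ ha, inf_top_eq]

theorem beq_checkP_of_not_equiv (x y : PSet.{u}) (h : ¬ PSet.Equiv x y) :
    beq (checkP x : BName B) (checkP y) = ⊥ := by
  induction x generalizing y with
  | mk α A ih =>
    cases y with
    | mk β D =>
      rw [checkP, checkP, beq]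
      have h' : ¬ ((∀ a, ∃ b, PSet.Equiv (A a) (D b)) ∧ ∀ b, ∃ a, PSet.Equiv (A a) (D b)) := h
      rw [not_and_or] at h'
      refine eq_bot_iff.2 ?_
      rcases h' with h' | h'
      · push Not at h'
        obtain ⟨a, ha⟩ := h'
        refine (inf_le_left.trans (iInf_le _ a)).trans ?_
        rw [top_himp]
        refine iSup_le fun b => ?_
        rw [ih a _ (ha b), inf_bot_eq]
      · push Not at h'
        obtain ⟨b, hb⟩ := h'
        refine (inf_le_right.trans (iInf_le _ b)).trans ?_
        rw [top_himp]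
        refine iSup_le fun a => ?_
        rw [ih a _ (hb a), inf_bot_eq]

theorem mk_out (x : ZFSet.{u}) : ZFSet.mk (Quotient.out x) = x := Quotient.out_eq x

theorem equiv_out_iff (x y : ZFSet.{u}) :
    PSet.Equiv (Quotient.out x) (Quotient.out y) ↔ x = y := by
  rw [← ZFSet.eq, mk_out, mk_out]

theorem beq_check_of_ne {x y : ZFSet.{u}} (h : x ≠ y) : beq (check x : BName B) (check y) = ⊥ :=
  beq_checkP_of_not_equiv _ _ (by rwa [equiv_out_iff])

theorem beq_checkP_check (x : PSet.{u}) : beq (checkP x : BName B) (check (ZFSet.mk x)) = ⊤ := by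
  refine beq_checkP_of_equiv _ _ ?_
  rw [← ZFSet.eq, mk_out]

/-- The elements of a check name are the check names of the elements. -/
theorem mem_check (z : BName B) (y : ZFSet.{u}) :
    bmem z (check y) = ⨆ (x : ZFSet.{u}) (_ : x ∈ y), beq z (check x) := by
  have h0 : ∀ w : PSet.{u}, bmem z (checkP w) = ⨆ a : w.Type, beq z (checkP (w.Func a)) := by
    intro w
    cases w with
    | mk α A =>
      rw [checkP, bmem]
      exact iSup_congr fun a => top_inf_eq _
  rw [check, h0]
  refine le_antisymm (iSup_le fun a => ?_) (iSup_le fun x => iSup_le fun hx => ?_)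
  · refine le_iSup_of_le (ZFSet.mk ((Quotient.out y).Func a)) (le_iSup_of_le ?_ ?_)
    · have hm : ZFSet.mk ((Quotient.out y).Func a) ∈ ZFSet.mk (Quotient.out y) :=
        ZFSet.mk_mem_iff.2 (PSet.func_mem _ _)
      rwa [mk_out] at hm
    · refine (ext_eq_right z).of_le (x := checkP ((Quotient.out y).Func a)) ?_ le_rfl
      rw [beq_checkP_check]; exact le_top
  · rw [← mk_out y, ← mk_out x] at hx
    rw [ZFSet.mk_mem_iff, PSet.mem_def] at hx
    obtain ⟨a, ha⟩ := hx
    refine le_iSup_of_le a ?_
    refine (ext_eq_right z).of_le (x := check x) ?_ le_rfl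
    rw [check, beq_checkP_of_equiv _ _ ha]; exact le_top

theorem mem_check_of_mem {x y : ZFSet.{u}} (h : x ∈ y) : bmem (check x : BName B) (check y) = ⊤ := by
  rw [mem_check]
  refine eq_top_iff.2 (le_iSup_of_le x (le_iSup_of_le h ?_))
  rw [beq_refl]

theorem mem_check_of_not_mem {x y : ZFSet.{u}} (h : x ∉ y) :
    bmem (check x : BName B) (check y) = ⊥ := by
  rw [mem_check]
  refine eq_bot_iff.2 (iSup_le fun z => iSup_le fun hz => ?_)
  rw [beq_check_of_ne]
  rintro rfl
  exact h hz

theorem iSup_check {φ : BName B → B} (h : Ext φ) (y : ZFSet.{u}) :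
    (⨆ z, bmem z (check y) ⊓ φ z) = ⨆ (x : ZFSet.{u}) (_ : x ∈ y), φ (check x) := by
  refine le_antisymm (iSup_le fun z => ?_) (iSup_le fun x => iSup_le fun hx => ?_)
  · rw [mem_check, iSup_inf_eq]
    refine iSup_mono fun x => ?_
    rw [iSup_inf_eq]
    exact iSup_mono fun _ => h z (check x)
  · refine le_iSup_of_le (check x) ?_
    rw [mem_check_of_mem hx, top_inf_eq]

theorem iInf_check {φ : BName B → B} (h : Ext φ) (y : ZFSet.{u}) :
    (⨅ z, bmem z (check y) ⇨ φ z) = ⨅ (x : ZFSet.{u}) (_ : x ∈ y), φ (check x) := by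
  refine le_antisymm (le_iInf fun x => le_iInf fun hx => ?_) (le_iInf fun z => ?_)
  · refine (iInf_le _ (check x)).trans ?_
    rw [mem_check_of_mem hx, top_himp]
  · rw [le_himp_iff, mem_check, inf_iSup_eq]
    refine iSup_le fun x => ?_
    rw [inf_iSup_eq]
    refine iSup_le fun hx => ?_
    exact h.of_le' (x := check x) inf_le_right (inf_le_left.trans (iInf_le_of_le x (iInf_le _ hx)))

theorem iSup_VBcheck {φ : BName B → B} (h : Ext φ) (y : ZFSet.{u}) :
    (⨆ z, (VB B).mem z (check y) ⊓ φ z) = ⨆ (x : ZFSet.{u}) (_ : x ∈ y), φ (check x) :=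
  iSup_check h y

theorem iInf_VBcheck {φ : BName B → B} (h : Ext φ) (y : ZFSet.{u}) :
    (⨅ z, (VB B).mem z (check y) ⇨ φ z) = ⨅ (x : ZFSet.{u}) (_ : x ∈ y), φ (check x) :=
  iInf_check h y

theorem sub_check_iff (x : ZFSet.{u}) (y : BName B) :
    (VB B).sub (check x) y = ⨅ (z : ZFSet.{u}) (_ : z ∈ x), bmem (check z) y :=
  iInf_check (ext_mem_left y) x

theorem sub_check_of_subset {x y : ZFSet.{u}} (h : x ⊆ y) : (VB B).sub (check x) (check y) = ⊤ := by
  rw [sub_check_iff]
  refine eq_top_iff.2 (le_iInf fun z => le_iInf fun hz => ?_)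
  rw [mem_check_of_mem (h hz)]

theorem sub_check_of_not_subset {x y : ZFSet.{u}} (h : ¬ x ⊆ y) :
    (VB B).sub (check x) (check y) = ⊥ := by
  rw [sub_check_iff]
  rw [ZFSet.subset_def] at h
  push Not at h
  obtain ⟨z, hz, hz'⟩ := h
  refine eq_bot_iff.2 (iInf_le_of_le z (iInf_le_of_le hz ?_))
  rw [mem_check_of_not_mem hz']

theorem isTrans_check {x : ZFSet.{u}} (h : x.IsTransitive) :
    (VB B).isTrans (check x) = ⊤ := by
  refine (iInf_check (ext_sub_left (check x)) x).trans ?_
  refine eq_top_iff.2 (le_iInf fun z => le_iInf fun hz => ?_)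
  rw [sub_check_of_subset (h z hz)]

theorem isTrans_check_of_not {x : ZFSet.{u}} (h : ¬ x.IsTransitive) :
    (VB B).isTrans (check x) = ⊥ := by
  refine (iInf_check (ext_sub_left (check x)) x).trans ?_
  unfold ZFSet.IsTransitive at h
  push Not at h
  obtain ⟨z, hz, hz'⟩ := h
  refine eq_bot_iff.2 (iInf_le_of_le z (iInf_le_of_le hz ?_))
  rw [sub_check_of_not_subset hz']

theorem isOrd_check {x : ZFSet.{u}} (h : x.IsOrdinal) : (VB B).isOrd (check x) = ⊤ := by
  have h2 : (⨅ y, (VB B).mem y (check x) ⇨ (VB B).isTrans y) = ⊤ := by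
    refine (iInf_check ext_isTrans x).trans ?_
    refine eq_top_iff.2 (le_iInf fun z => le_iInf fun hz => ?_)
    rw [isTrans_check (h.mem hz).isTransitive]
  rw [Str.isOrd, isTrans_check h.isTransitive, h2, inf_top_eq]

theorem isOrd_check_of_not {x : ZFSet.{u}} (h : ¬ x.IsOrdinal) :
    (VB B).isOrd (check x) = ⊥ := by
  by_contra hne
  refine h ?_
  have h1 : x.IsTransitive := by
    by_contra h'
    apply hne
    rw [Str.isOrd, isTrans_check_of_not h', bot_inf_eq]
  have h2 : ∀ y ∈ x, y.IsTransitive := by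
    intro y hy
    by_contra h'
    apply hne
    rw [eq_bot_iff, Str.isOrd]
    refine inf_le_right.trans ((iInf_le _ (check y)).trans ?_)
    rw [VB_mem, mem_check_of_mem hy, top_himp, isTrans_check_of_not h']
  rw [ZFSet.isOrdinal_iff_forall_mem_isTransitive]
  exact ⟨h1, h2⟩

/-! ## Pairs and relations between check names -/

theorem beq_upr_check (a b : ZFSet.{u}) :
    beq (upr (check a) (check b) : BName B) (check {a, b}) = ⊤ := by
  rw [eq_top_iff, beq_eq_iInf]
  refine le_iInf fun z => ?_
  rw [mem_upr, mem_check]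
  have : (⨆ (x : ZFSet.{u}) (_ : x ∈ ({a, b} : ZFSet.{u})), beq z (check x)) =
      beq z (check a) ⊔ beq z (check b) := by
    refine le_antisymm (iSup_le fun x => iSup_le fun hx => ?_) (sup_le ?_ ?_)
    · rw [ZFSet.mem_pair] at hx
      rcases hx with rfl | rfl
      · exact le_sup_left
      · exact le_sup_right
    · exact le_iSup_of_le a (le_iSup_of_le (by simp) le_rfl)
    · exact le_iSup_of_le b (le_iSup_of_le (by simp) le_rfl)
  rw [this]
  simp

theorem beq_opr_check (a b : ZFSet.{u}) :
    beq (opr (check a) (check b) : BName B) (check (ZFSet.pair a b)) = ⊤ := by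
  have h1 : beq (upr (check a) (check a) : BName B) (check {a}) = ⊤ := by
    have := beq_upr_check (B := B) a a
    rwa [show ({a, a} : ZFSet.{u}) = {a} by ext z; simp] at this
  have h2 : beq (upr (check a) (check b) : BName B) (check {a, b}) = ⊤ := beq_upr_check a b
  have h3 := beq_upr_check (B := B) {a} {a, b}
  have h4 : beq (opr (check a) (check b) : BName B) (upr (check {a}) (check {a, b})) = ⊤ := by
    rw [opr, beq_upr, h1, h2]; simp
  have h5 := (ext_eq_right (opr (check a) (check b) : BName B)).of_le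
    (x := upr (check {a}) (check {a, b})) (y := check (ZFSet.pair a b)) (Γ := ⊤)
    (by rw [ZFSet.pair]; exact h3.ge) (by rw [h4])
  exact top_le_iff.1 h5

theorem mem_inf_beq_check_le (z x : BName B) (s : ZFSet.{u}) :
    bmem z x ⊓ beq x (check s) ≤ ⨆ a : ZFSet.{u}, beq z (check a) := by
  have h : bmem z x ⊓ beq x (check s) ≤ bmem z (check s) :=
    (ext_mem_right z).of_le inf_le_right inf_le_left
  refine h.trans ?_
  rw [mem_check]
  exact iSup_mono fun a => iSup_le fun _ => le_rfl

theorem beq_opr_check_le (x y : BName B) (p : ZFSet.{u}) : beq (opr x y) (check p) ≤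
    (⨆ a : ZFSet.{u}, beq x (check a)) ⊓ ⨆ a : ZFSet.{u}, beq y (check a) := by
  have h1 : beq (opr x y) (check p) ≤ bmem (upr x x) (check p) := by
    refine (ext_mem_right (upr x x)).of_le (x := opr x y) le_rfl ?_
    rw [opr, mem_upr, beq_refl, top_sup_eq]; exact le_top
  have h2 : beq (opr x y) (check p) ≤ bmem (upr x y) (check p) := by
    refine (ext_mem_right (upr x y)).of_le (x := opr x y) le_rfl ?_
    rw [opr, mem_upr, beq_refl, sup_top_eq]; exact le_top
  rw [mem_check] at h1 h2
  refine le_inf (h1.trans (iSup_le fun s => iSup_le fun _ => ?_))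
    (h2.trans (iSup_le fun s => iSup_le fun _ => ?_))
  · refine le_trans (le_inf ?_ le_rfl) (mem_inf_beq_check_le x (upr x x) s)
    rw [mem_upr, beq_refl, top_sup_eq]; exact le_top
  · refine le_trans (le_inf ?_ le_rfl) (mem_inf_beq_check_le y (upr x y) s)
    rw [mem_upr, beq_refl, sup_top_eq]; exact le_top

/-- `(x, y) ∈ f̌`. -/
theorem rel_check (f : ZFSet.{u}) (x y : BName B) : (VB B).rel (check f) x y =
    ⨆ (a : ZFSet.{u}) (b : ZFSet.{u}) (_ : ZFSet.pair a b ∈ f), beq x (check a) ⊓ beq y (check b) := by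
  rw [rel_eq, mem_check]
  refine le_antisymm (iSup_le fun p => iSup_le fun hp => ?_)
    (iSup_le fun a => iSup_le fun b => iSup_le fun h => ?_)
  · have h1 := beq_opr_check_le x y p
    rw [iSup_inf_iSup] at h1
    refine (le_inf le_rfl h1).trans ?_
    rw [inf_iSup_eq]
    refine iSup_le fun ⟨a, b⟩ => ?_
    by_cases hpab : ZFSet.pair a b = p
    · subst hpab
      exact inf_le_right.trans (le_iSup_of_le a (le_iSup_of_le b (le_iSup_of_le hp le_rfl)))
    · refine le_trans ?_ bot_le
      rw [← beq_check_of_ne (B := B) hpab]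
      refine (ext_eq_left (check p)).of_le (x := opr x y) ?_ inf_le_left
      refine (ext_eq_right (opr x y)).of_le (x := opr (check a) (check b)) ?_ ?_
      · rw [beq_opr_check]; exact le_top
      · rw [beq_opr]; exact inf_le_right
  · refine le_iSup_of_le (ZFSet.pair a b) (le_iSup_of_le h ?_)
    refine (ext_eq_right (opr x y)).of_le (x := opr (check a) (check b)) ?_ ?_
    · rw [beq_opr_check]; exact le_top
    · rw [beq_opr]

theorem rel_check_check_of_mem {f a b : ZFSet.{u}} (h : ZFSet.pair a b ∈ f) :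
    (VB B).rel (check f) (check a) (check b) = ⊤ := by
  rw [rel_eq]
  refine top_le_iff.1 ?_
  refine (ext_mem_left (check f)).of_le (x := check (ZFSet.pair a b)) ?_ ?_
  · rw [beq_symm, beq_opr_check]
  · rw [mem_check_of_mem h]

theorem rel_check_check_of_not_mem {f a b : ZFSet.{u}} (h : ZFSet.pair a b ∉ f) :
    (VB B).rel (check f) (check a) (check b) = ⊥ := by
  rw [rel_eq]
  refine le_bot_iff.1 ?_
  rw [← mem_check_of_not_mem (B := B) h]
  refine (ext_mem_left (check f)).of_le (x := opr (check a) (check b)) ?_ le_rfl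
  rw [beq_opr_check]; exact le_top

end Pool.Agent.Lib.MP_100a6c_lc
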