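import Pool.Agent.Lib.MP_100a6c_lc.Defs

/-!
# Interfaces that do not need the Boolean-valued universe
-/

universe u

open Cardinal

namespace Pool.Agent.Lib.MP_100a6c_lc

/-! ## V1: the notions in the universe of sets -/

/-- V1: translation of the notions for `V` into Mathlib's notions. -/
def V1Statement : Prop :=
  (∀ x y : ZFSet.{u}, V.sub x y ↔ x ⊆ y) ∧
  (∀ p a b : ZFSet.{u}, V.isPair p a b ↔ p = ZFSet.pair a b) ∧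
  (∀ f a b : ZFSet.{u}, V.rel f a b ↔ ZFSet.pair a b ∈ f) ∧
  (∀ x y : ZFSet.{u}, V.leCard x y ↔ x.card ≤ y.card) ∧
  (∀ x : ZFSet.{u}, V.isTrans x ↔ x.IsTransitive) ∧
  (∀ x : ZFSet.{u}, V.isOrd x ↔ x.IsOrdinal) ∧
  (∀ s a b : ZFSet.{u}, V.isFun s a b ↔ ZFSet.IsFunc a b s) ∧
  (∀ θ : ZFSet.{u}, V.isReg θ ↔ ∃ c : Cardinal.{u}, c.IsRegular ∧ θ = c.ord.toZFSet) ∧
  (∀ κ : ZFSet.{u}, V.std κ ↔ ∃ c : Cardinal.{u}, c.IsRegular ∧ κ = c.ord.toZFSet ∧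
    ∀ d < c, c ^ d ≤ c) ∧
  (∀ (μ : ZFSet.{u}) (c : Cardinal.{u}), ℵ₀ ≤ c →
    (V.isSucc μ c.ord.toZFSet ↔ μ = (Order.succ c).ord.toZFSet))

/-! ## VA: guessing models closed under an arbitrary rule -/

/-- VA: under `GMP` there are guessing models closed under any given rule `R`.  (`H` will be `H(θ)`
for a large regular `θ`; the set of `c ∈ P_{μ⁺}(H)` closed under `R` is club.) -/
def VAStatement : Prop :=
  ∀ κ : ZFSet.{u}, V.std κ → V.gmp κ → ∃ μ : ZFSet.{u}, V.isSucc μ κ ∧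
    ∀ N : ZFSet.{u}, ∃ H : ZFSet.{u}, N ∈ H ∧ H.IsTransitive ∧ (∀ x y, x ⊆ y → y ∈ H → x ∈ H) ∧
      ∀ R : List ZFSet.{u} → ZFSet.{u}, (∀ l, (R l).card ≤ Order.succ κ.card) →
        ∃ M : ZFSet.{u}, M ⊆ H ∧ (∀ l : List ZFSet.{u}, (∀ x ∈ l, x ∈ M) →
          ∀ y ∈ R l, y ∈ H → y ∈ M) ∧ V.isGuess κ μ H M

/-! ## Typed version -/

/-- Codes of objects of several types. -/
inductive Om (I B K : Type u) : Type u
  | idx (i : I) : Om I B K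
  | sub (z : Set I) : Om I B K
  | fam (E : Set (Set I)) : Om I B K
  | fn (t : I → B) : Om I B K
  | lab (e : K → Set I) : Om I B K

/-- `M` is closed under the rule `R`. -/
def RClosed {Ω : Type u} (R : List Ω → Set Ω) (M : Set Ω) : Prop :=
  ∀ l : List Ω, (∀ x ∈ l, x ∈ M) → R l ⊆ M

/-- Typed guessing models; `c` is the cardinal `κ`, `K` a type of cardinality `c`. -/
structure GS {I B K : Type u} (c : Cardinal.{u}) (M : Set (Om I B K)) : Prop where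
  size : #M ≤ Order.succ c
  guess : ∀ D : Set I, (∀ z : Set I, #z ≤ c → Om.sub z ∈ M → Om.sub (D ∩ z) ∈ M) →
    ∃ e : Set I, Om.sub e ∈ M ∧ ∀ i, Om.idx i ∈ M → (i ∈ D ↔ i ∈ e)
  cov1 : ∀ a : K → I, (∀ k, Om.idx (a k) ∈ M) → ∃ z : Set I, #z ≤ c ∧ Om.sub z ∈ M ∧ ∀ k, a k ∈ z
  cov2 : ∀ a : K → Set I, (∀ k, Om.sub (a k) ∈ M) →
    ∃ E : Set (Set I), #E ≤ c ∧ Om.fam E ∈ M ∧ ∀ k, a k ∈ E

/-- GS: existence of typed guessing models closed under any rule. -/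
def GSStatement : Prop :=
  ∀ κ : ZFSet.{u}, V.std κ → V.gmp κ → ∀ (I B K : Type u), #K = κ.card →
    ∀ R : List (Om I B K) → Set (Om I B K), (∀ l, #(R l) ≤ Order.succ κ.card) →
      ∃ M : Set (Om I B K), GS κ.card M ∧ RClosed R M

/-! ## CORE -/

/-- Ultrafilters of a Boolean algebra. -/
structure IsUlt {B : Type u} [BooleanAlgebra B] (U : Set B) : Prop where
  top : ⊤ ∈ U
  bot : ⊥ ∉ U
  inf : ∀ a ∈ U, ∀ b ∈ U, a ⊓ b ∈ U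
  up : ∀ a ∈ U, ∀ b, a ≤ b → b ∈ U
  compl : ∀ a, a ∈ U ∨ aᶜ ∈ U

/-- CORE: the combinatorial heart (parts (2)-(5) of the proof).  `E i i'` plays the role of the
Boolean value of `A i = A i'`, `b M i` that of `A i ∈ d_M`. -/
def CoreStatement : Prop :=
  ∀ (I B K : Type u) [CompleteBooleanAlgebra B] (c : Cardinal.{u}), ℵ₀ ≤ c → #K = c →
  ∀ E : I → I → B, (∀ i, E i i = ⊤) → (∀ i j, E i j = E j i) →
    (∀ i j k, E i j ⊓ E j k ≤ E i k) →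
  ∀ U : K → Set B, (∀ k, IsUlt (U k)) → (∀ b : B, b ≠ ⊥ → ∃ k, b ∈ U k) →
  ∃ R : List (Om I B K) → Set (Om I B K), (∀ l, #(R l) ≤ c) ∧
    ∀ (S : Set (Set (Om I B K))), (∀ M ∈ S, GS c M ∧ RClosed R M) →
    ∀ (q : Set (Om I B K) → B) (b : Set (Om I B K) → I → B),
      (∀ M ∈ S, q M ≠ ⊥) →
      (∀ M ∈ S, ∀ i j, b M i ⊓ E i j ≤ b M j) →
      (∀ M ∈ S, ∀ z : Set I, #z ≤ c → Om.sub z ∈ M → ∀ p ≤ q M, p ≠ ⊥ →
        ∃ p' ≤ p, p' ≠ ⊥ ∧ ∃ t : I → B, Om.fn t ∈ M ∧ ∀ i ∈ z, p' ⊓ b M i = p' ⊓ t i) →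
      ∃ G : (K → Set I) → I → B, (∀ e i j, G e i ⊓ E i j ≤ G e j) ∧
        ∀ M ∈ S, ∃ e, Om.lab e ∈ M ∧ ∃ p ≤ q M, p ≠ ⊥ ∧
          ∀ i, Om.idx i ∈ M → p ⊓ b M i = p ⊓ G e i

end Pool.Agent.Lib.MP_100a6c_lc
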