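import Pool.Agent.Lib.MP_100a6c_lc.Base3
import Pool.Agent.Lib.MP_100a6c_lc.IfaceV

/-!
# Further extensionality lemmas; families representing the elements of a name
-/

universe u

open scoped symmDiff
open Cardinal

namespace Pool.Agent.Lib.MP_100a6c_lc

open BName

variable {B : Type u} [CompleteBooleanAlgebra B]

theorem ext_isReg : Ext (fun x : BName B => (VB B).isReg x) := by
  refine ((ext_isOrd.inf (Ext.iSup fun x => ext_mem_right x)).inf (Ext.iInf fun x =>
    (ext_mem_right x).himp (Ext.iSup fun y => (ext_mem_right y).inf (Ext.const _)))).inf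
    (Ext.iInf fun ρ => (ext_mem_right ρ).himp (Ext.iInf fun f => (ext_isFun_trd f ρ).himp
      (Ext.iSup fun β => (ext_mem_right β).inf (Ext.const _))))

theorem ext_isSucc_left (κ : BName B) : Ext (fun x : BName B => (VB B).isSucc x κ) :=
  (ext_isOrd.inf (ext_leCard_left κ).compl).inf
    (Ext.iInf fun ξ => (ext_mem_right ξ).himp (Ext.const _))

theorem ext_isSucc_right (μ : BName B) : Ext (fun x : BName B => (VB B).isSucc μ x) :=
  ((Ext.const _).inf (ext_leCard_right μ).compl).inf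
    (Ext.iInf fun ξ => (Ext.const _).himp (ext_leCard_right ξ))

theorem ext_isH_left (θ : BName B) : Ext (fun H : BName B => (VB B).isH H θ) :=
  Ext.iInf fun x => (ext_mem_right x).bihimp (Ext.const _)

theorem ext_isH_right (H : BName B) : Ext (fun θ : BName B => (VB B).isH H θ) :=
  Ext.iInf fun x => (Ext.const _).bihimp (Ext.iSup fun t => (Ext.const _).inf
    (Ext.iSup fun ρ => (ext_mem_right ρ).inf (Ext.const _)))

theorem ext_isClub_left (H μ : BName B) : Ext (fun C : BName B => (VB B).isClub C H μ) :=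
  ((Ext.iInf fun c => (ext_mem_right c).himp (Ext.const _)).inf
    (Ext.iInf fun x => (Ext.const _).himp (Ext.iSup fun c => (ext_mem_right c).inf
      (Ext.const _)))).inf
    (Ext.iInf fun D => ((((ext_sub_right D).inf (Ext.const _)).inf (Ext.const _)).inf
      (Ext.const _)).himp (Ext.iInf fun w => (Ext.const _).himp (ext_mem_right w)))

theorem ext_approx_right (κ M : BName B) : Ext (fun d : BName B => (VB B).approx κ M d) :=
  Ext.iInf fun z => (Ext.const _).himp (Ext.iSup fun t => (Ext.const _).inf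
    (Ext.iInf fun y => (Ext.const _).bihimp ((ext_mem_right y).inf (Ext.const _))))

theorem ext_guessed_right (M : BName B) : Ext (fun d : BName B => (VB B).guessed M d) :=
  Ext.iSup fun e => (Ext.const _).inf (Ext.iInf fun y => (Ext.const _).himp
    ((ext_mem_right y).bihimp (Ext.const _)))

/-- `sat X φ` respects equality of assignments. -/
theorem sat_congr (X : BName B) {n : ℕ} (φ : Fml n) (v w : Fin n → BName B) :
    (⨅ i, beq (v i) (w i)) ⊓ (VB B).sat X φ v ≤ (VB B).sat X φ w := by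
  induction φ with
  | @mem n j k =>
    change _ ⊓ bmem _ _ ≤ bmem _ _
    refine (ext_mem_left _).of_le (inf_le_left.trans (iInf_le _ j)) ?_
    exact (ext_mem_right _).of_le (inf_le_left.trans (iInf_le _ k)) inf_le_right
  | @eq n j k =>
    change _ ⊓ beq _ _ ≤ beq _ _
    refine (ext_eq_left _).of_le (inf_le_left.trans (iInf_le _ j)) ?_
    exact (ext_eq_right _).of_le (inf_le_left.trans (iInf_le _ k)) inf_le_right
  | fls => exact inf_le_right
  | imp φ ψ ih1 ih2 =>
    change _ ⊓ (_ ⇨ _) ≤ (_ ⇨ _)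
    rw [le_himp_iff]
    have h1 : (⨅ i, beq (v i) (w i)) ⊓ ((VB B).sat X φ v ⇨ (VB B).sat X ψ v) ⊓ (VB B).sat X φ w ≤
        (VB B).sat X φ v := by
      refine le_trans (le_inf ?_ inf_le_right) (ih1 w v)
      refine (inf_le_left.trans inf_le_left).trans (iInf_mono fun i => ?_)
      rw [beq_symm]
    refine le_trans (le_inf (inf_le_left.trans inf_le_left) ?_) (ih2 v w)
    exact le_trans (le_inf (inf_le_left.trans inf_le_right) h1) himp_inf_le
  | @all n φ ih =>
    change _ ⊓ (⨅ x, _ ⇨ _) ≤ ⨅ x, _ ⇨ _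
    refine le_iInf fun x => ?_
    rw [le_himp_iff]
    have h1 : (⨅ i, beq (v i) (w i)) ⊓ (⨅ x, (VB B).mem x X ⇨ (VB B).sat X φ (Fin.cons x v)) ⊓
        (VB B).mem x X ≤ (VB B).sat X φ (Fin.cons x v) :=
      le_trans (le_inf ((inf_le_left.trans inf_le_right).trans (iInf_le _ x)) inf_le_right)
        himp_inf_le
    refine le_trans (le_inf ?_ h1) (ih (Fin.cons x v) (Fin.cons x w))
    refine (inf_le_left.trans inf_le_left).trans (le_iInf fun i => ?_)
    refine Fin.cases ?_ (fun j => ?_) i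
    · simp [beq_refl]
    · simpa using iInf_le (fun i => beq (v i) (w i)) j

/-- `sat X φ` respects equality in variable `0`. -/
theorem ext_sat_cons (X : BName B) {n : ℕ} (φ : Fml (n + 1)) (v : Fin n → BName B) :
    Ext (fun x : BName B => (VB B).sat X φ (Fin.cons x v)) := by
  intro x y
  refine le_trans (inf_le_inf_right _ ?_) (sat_congr X φ _ _)
  refine le_iInf fun i => Fin.cases ?_ (fun j => ?_) i
  · simp
  · simp [beq_refl]

/-! ## Families representing the elements of a name -/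

/-- The name of `{A i : i ∈ J}`. -/
def nameJ {I : Type u} (A : I → BName B) (J : Set I) : BName B := mk J (fun i => A i) fun _ => ⊤

theorem mem_nameJ {I : Type u} (A : I → BName B) (J : Set I) (z : BName B) :
    bmem z (nameJ A J) = ⨆ i : J, beq z (A i) := by
  rw [nameJ, mem_mk]
  exact iSup_congr fun i => top_inf_eq _

theorem mem_nameJ_self {I : Type u} (A : I → BName B) {J : Set I} {i : I} (h : i ∈ J) :
    bmem (A i) (nameJ A J) = ⊤ := by
  rw [mem_nameJ]
  refine eq_top_iff.2 (le_iSup_of_le ⟨i, h⟩ ?_)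
  rw [beq_refl]

theorem iSup_nameJ {I : Type u} (A : I → BName B) (J : Set I) {φ : BName B → B} (h : Ext φ) :
    (⨆ z, bmem z (nameJ A J) ⊓ φ z) = ⨆ i : J, φ (A i) := by
  rw [iSup_mem h]
  exact iSup_congr fun i => top_inf_eq _

theorem iInf_nameJ {I : Type u} (A : I → BName B) (J : Set I) {φ : BName B → B} (h : Ext φ) :
    (⨅ z, bmem z (nameJ A J) ⇨ φ z) = ⨅ i : J, φ (A i) := by
  rw [iInf_mem h]
  exact iInf_congr fun i => top_himp

/-- The family `A` represents the elements of `H` at `Γ`. -/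
structure Rep (Γ : B) (H : BName B) {I : Type u} (A : I → BName B) : Prop where
  mem : ∀ i, Γ ≤ bmem (A i) H
  rep : ∀ τ, Γ ≤ bmem τ H → ∃ i, Γ ≤ beq τ (A i)

theorem exists_rep (Γ : B) (H : BName B) : ∃ (I : Type u) (A : I → BName B), Rep Γ H A := by
  classical
  let P : (H.ix → B) → BName B → Prop := fun f τ => Γ ≤ bmem τ H ∧ ∀ j, f j = Γ ⊓ beq τ (H.nm j)
  refine ⟨{f : H.ix → B // ∃ τ, P f τ}, fun f => f.2.choose, fun f => f.2.choose_spec.1, ?_⟩
  intro τ hτ
  refine ⟨⟨fun j => Γ ⊓ beq τ (H.nm j), τ, hτ, fun _ => rfl⟩, ?_⟩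
  generalize_proofs h
  obtain ⟨h1, h2⟩ := h.choose_spec
  rw [bmem_def] at hτ
  have : Γ ≤ ⨆ i, Γ ⊓ beq τ (H.nm i) := by
    rw [← inf_iSup_eq]
    exact le_inf le_rfl (hτ.trans (iSup_mono fun i => inf_le_right))
  refine this.trans (iSup_le fun j => ?_)
  have h3 : Γ ⊓ beq τ (H.nm j) ≤ beq h.choose (H.nm j) := (h2 j).le.trans inf_le_right
  exact (ext_eq_right τ).of_le' (x := H.nm j) h3 inf_le_right

namespace Rep

variable {Γ : B} {H : BName B} {I : Type u} {A : I → BName B}

/-- Local version of `rep`. -/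
theorem loc (h : Rep Γ H A) (i0 : I) {Δ : B} (hΔ : Δ ≤ Γ) {τ : BName B} (hτ : Δ ≤ bmem τ H) :
    ∃ i, Δ ≤ beq τ (A i) := by
  obtain ⟨σ, hσ⟩ := mix (ι := ULift Bool) (fun t => if t.down then Δ else Δᶜ)
    (fun t => if t.down then τ else A i0) (by
      rintro ⟨_ | _⟩ ⟨_ | _⟩ <;> simp [beq_refl])
  have h1 : Δ ≤ beq σ τ := by simpa using hσ ⟨true⟩
  have h2 : Δᶜ ≤ beq σ (A i0) := by simpa using hσ ⟨false⟩
  have h3 : Γ ≤ bmem σ H := by
    have e : Γ = (Γ ⊓ Δ) ⊔ (Γ ⊓ Δᶜ) := by rw [← inf_sup_left, sup_compl_eq_top, inf_top_eq]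
    rw [e]
    refine sup_le ?_ ?_
    · exact (ext_mem_left H).of_le' (x := τ) (inf_le_right.trans h1) (inf_le_right.trans hτ)
    · exact (ext_mem_left H).of_le' (x := A i0) (inf_le_right.trans h2)
        (inf_le_left.trans (h.mem i0))
  obtain ⟨i, hi⟩ := h.rep σ h3
  exact ⟨i, (ext_eq_left (A i)).of_le (x := σ) h1 (hΔ.trans hi)⟩

/-- Quantifiers bounded by `H`. -/
theorem iSup_le_iff' (h : Rep Γ H A) (i0 : I) {φ : BName B → B} (hφ : Ext φ) {Δ : B} (hΔ : Δ ≤ Γ) :
    (Δ ≤ ⨆ z, bmem z H ⊓ φ z) ↔ ∃ i, Δ ≤ φ (A i) := by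
  constructor
  · intro h1
    obtain ⟨τ, hτ⟩ := exists_wit ((ext_mem_left H).inf hφ) h1
    obtain ⟨i, hi⟩ := h.loc i0 hΔ (hτ.trans inf_le_left)
    exact ⟨i, hφ.of_le (x := τ) hi (hτ.trans inf_le_right)⟩
  · rintro ⟨i, hi⟩
    exact le_iSup_of_le (A i) (le_inf (hΔ.trans (h.mem i)) hi)

theorem nameJ_sub (h : Rep Γ H A) (J : Set I) : Γ ≤ (VB B).sub (nameJ A J) H := by
  rw [le_sub_iff]
  intro i
  exact inf_le_left.trans (h.mem _)

end Rep

end Pool.Agent.Lib.MP_100a6c_lc
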