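import Pool.Agent.Lib.MP_100a6c_lc.Base4
import Pool.Agent.Lib.MP_100a6c_lc.H77.V1

/-!
# Cardinality in `V^B`: enumerations by ground model ordinals
-/

universe u

open scoped symmDiff
open Cardinal

namespace Pool.Agent.Lib.MP_100a6c_lc

open BName

variable {B : Type u} [CompleteBooleanAlgebra B]

/-- `x ⊆ {t y : y ∈ Y}` at `Γ`. -/
def Enum (Γ : B) (x : BName B) {Y : Type u} (t : Y → BName B) : Prop :=
  ∀ z, Γ ⊓ bmem z x ≤ ⨆ y, beq z (t y)

theorem Enum.mono {Γ Δ : B} {x : BName B} {Y : Type u} {t : Y → BName B} (h : Enum Γ x t)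
    (hΔ : Δ ≤ Γ) : Enum Δ x t := fun z => (inf_le_inf_right _ hΔ).trans (h z)

theorem enum_nameJ {I : Type u} (Γ : B) (A : I → BName B) (J : Set I) :
    Enum Γ (nameJ A J) (fun i : J => A i) := fun z => by
  rw [mem_nameJ]; exact inf_le_right

theorem enum_of_sub {Γ : B} {x y : BName B} {Y : Type u} {t : Y → BName B}
    (h : Γ ≤ (VB B).sub x y) (hy : Enum Γ y t) : Enum Γ x t := fun z =>
  le_trans (le_inf inf_le_left (sub_apply h z inf_le_left inf_le_right)) (hy z)

/-- From an enumeration to the cardinality. -/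
theorem le_leCard_of_enum {Γ : B} {x : BName B} {Y : Type u} {t : Y → BName B} (c : Cardinal.{u})
    (hY : #Y ≤ c) (h : Enum Γ x t) : Γ ≤ (VB B).leCard x (check c.ord.toZFSet) := by
  have hY' : #Y ≤ #c.ord.ToType := by rwa [mk_ord_toType]
  obtain ⟨e⟩ := hY'
  refine le_leCard (Y := Y)
    (fun y => check ((Ordinal.ToType.mk.symm (e y)).1.toZFSet)) (fun y z => beq z (t y)) ?_ ?_ ?_
    ?_ h
  · intro y y' hne
    refine beq_check_of_ne fun h => hne ?_
    have := Ordinal.toZFSet_injective h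
    exact e.injective (Ordinal.ToType.mk.symm.injective (Subtype.ext this))
  · intro y
    rw [mem_check_of_mem]
    · exact le_top
    · rw [Ordinal.toZFSet_mem_toZFSet_iff]
      exact (Ordinal.ToType.mk.symm (e y)).2
  · intro y; exact ext_eq_left _
  · intro y z z'
    exact (ext_eq_right z).of_le' (x := t y) (inf_le_right.trans inf_le_right)
      (inf_le_right.trans inf_le_left)

/-- From the cardinality to an enumeration. -/
theorem exists_enum_of_le_leCard {Γ : B} {x : BName B} (o : Ordinal.{u})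
    (h : Γ ≤ (VB B).leCard x (check o.toZFSet)) : ∃ t : o.ToType → BName B, Enum Γ x t := by
  unfold Str.leCard at h
  obtain ⟨f, hf⟩ := exists_wit (((Ext.iInf fun b => Ext.iInf fun a => Ext.iInf fun a' =>
    ((ext_rel_fst b a).inf (ext_rel_fst b a')).himp (Ext.const _)).inf
    (Ext.iInf fun a => (Ext.const _).himp (Ext.iSup fun b => (Ext.const _).inf
      (ext_rel_fst b a))))) h
  have hw : ∀ y : o.ToType, ∃ τ : BName B,
      (⨆ z, (VB B).rel f (check (Ordinal.ToType.mk.symm y).1.toZFSet) z) =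
        (VB B).rel f (check (Ordinal.ToType.mk.symm y).1.toZFSet) τ := fun y =>
    exists_max (ext_rel_trd f _)
  choose t ht using hw
  refine ⟨t, fun z => ?_⟩
  have h1 : Γ ⊓ bmem z x ≤ ⨆ b, (VB B).mem b (check o.toZFSet) ⊓ (VB B).rel f b z :=
    iInf_himp_apply (hf.trans inf_le_right) z inf_le_left inf_le_right
  rw [iSup_VBcheck (ext_rel_snd f z)] at h1
  refine (le_inf inf_le_left h1).trans ?_
  rw [inf_iSup_eq]
  refine iSup_le fun a => ?_
  rw [inf_iSup_eq]
  refine iSup_le fun ha => ?_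
  obtain ⟨p, hp, rfl⟩ := Ordinal.mem_toZFSet_iff.1 ha
  refine le_iSup_of_le (Ordinal.ToType.mk ⟨p, hp⟩) ?_
  have h2 := ht (Ordinal.ToType.mk ⟨p, hp⟩)
  simp only [OrderIso.symm_apply_apply] at h2
  have h3 : Γ ⊓ (VB B).rel f (check p.toZFSet) z ≤
      (VB B).rel f (check p.toZFSet) (t (Ordinal.ToType.mk ⟨p, hp⟩)) :=
    (inf_le_right.trans (le_iSup _ z)).trans h2.le
  have h4 : Γ ≤ (VB B).rel f (check p.toZFSet) z ⊓
      (VB B).rel f (check p.toZFSet) (t (Ordinal.ToType.mk ⟨p, hp⟩)) ⇨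
        (VB B).eq z (t (Ordinal.ToType.mk ⟨p, hp⟩)) :=
    (hf.trans inf_le_left).trans (iInf_le_of_le _ (iInf_le_of_le _ (iInf_le _ _)))
  rw [le_himp_iff] at h4
  exact le_trans (le_inf inf_le_left (le_inf inf_le_right h3)) h4

/-- Reindexing an enumeration. -/
theorem Enum.reindex {Γ : B} {x : BName B} {Y Y' : Type u} {t : Y → BName B} (h : Enum Γ x t)
    (g : Y' → Y) (hg : Function.Surjective g) : Enum Γ x (fun y => t (g y)) := fun z =>
  (h z).trans (iSup_le fun y => by
    obtain ⟨y', rfl⟩ := hg y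
    exact le_iSup (fun y => beq z (t (g y))) y')

/-- An enumeration indexed by any type of the right size. -/
theorem exists_enum_type {Γ : B} {x : BName B} {c : Cardinal.{u}} {K : Type u} (hK : #K = c)
    (h : Γ ≤ (VB B).leCard x (check c.ord.toZFSet)) : ∃ t : K → BName B, Enum Γ x t := by
  obtain ⟨t, ht⟩ := exists_enum_of_le_leCard _ h
  have : #K = #c.ord.ToType := by rw [mk_ord_toType, hK]
  obtain ⟨e⟩ := Cardinal.eq.1 this
  exact ⟨_, ht.reindex e e.surjective⟩

theorem sub_le_leCard (x y : BName B) : (VB B).sub x y ≤ (VB B).leCard x y := by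
  refine le_iSup_of_le (relFam (ι := x.ix) x.nm x.nm x.vl) (le_inf ?_ ?_)
  · refine le_iInf fun b => le_iInf fun a => le_iInf fun a' => ?_
    rw [le_himp_iff, rel_relFam, rel_relFam]
    refine inf_le_right.trans ?_
    rw [iSup_inf_iSup]
    refine iSup_le fun ⟨i, j⟩ => ?_
    have h1 : x.vl i ⊓ (beq b (x.nm i) ⊓ beq a (x.nm i)) ⊓ (x.vl j ⊓ (beq b (x.nm j) ⊓
        beq a' (x.nm j))) ≤ beq a b :=
      (ext_eq_right a).of_le' (x := x.nm i) ((inf_le_left.trans inf_le_right).trans inf_le_left)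
        ((inf_le_left.trans inf_le_right).trans inf_le_right)
    have h2 : x.vl i ⊓ (beq b (x.nm i) ⊓ beq a (x.nm i)) ⊓ (x.vl j ⊓ (beq b (x.nm j) ⊓
        beq a' (x.nm j))) ≤ beq a' b :=
      (ext_eq_right a').of_le' (x := x.nm j) ((inf_le_right.trans inf_le_right).trans inf_le_left)
        ((inf_le_right.trans inf_le_right).trans inf_le_right)
    exact (ext_eq_right a).of_le' (x := b) h2 h1
  · refine le_iInf fun a => ?_
    rw [le_himp_iff]
    refine le_iSup_of_le a (le_inf ?_ ?_)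
    · exact sub_apply le_rfl a inf_le_left inf_le_right
    · rw [rel_relFam, VB_mem, bmem_def]
      refine inf_le_right.trans (iSup_mono fun i => ?_)
      exact le_inf inf_le_left (le_inf inf_le_right inf_le_right)

/-- `|x̌| ≤ |y̌|` if `|x| ≤ |y|`. -/
theorem leCard_check {x y : ZFSet.{u}} (h : V.leCard x y) :
    (VB B).leCard (check x) (check y) = ⊤ := by
  have h' : ∃ f : ZFSet.{u}, (∀ b a a', V.rel f b a ∧ V.rel f b a' → a = a') ∧
      ∀ a, a ∈ x → ∃ b, b ∈ y ∧ V.rel f b a := by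
    have h0 := h
    unfold Str.leCard at h0
    simp only [iSup_Prop_eq, iInf_Prop_eq, inf_Prop_eq, H77.himp_prop, H77.V_mem, H77.V_eq] at h0
    exact h0
  obtain ⟨f, hf1, hf2⟩ := h'
  simp only [H77.rel_iff] at hf1 hf2
  rw [eq_top_iff]
  refine le_iSup_of_le (check f) (le_inf ?_ ?_)
  · refine le_iInf fun b => le_iInf fun a => le_iInf fun a' => ?_
    rw [le_himp_iff, top_inf_eq, rel_check, rel_check]
    have e1 : ∀ a : BName B, (⨆ (p : ZFSet.{u}) (q : ZFSet.{u}) (_ : ZFSet.pair p q ∈ f),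
        beq b (check p) ⊓ beq a (check q)) = ⨆ (r : {r : ZFSet.{u} × ZFSet.{u} //
          ZFSet.pair r.1 r.2 ∈ f}), beq b (check r.1.1) ⊓ beq a (check r.1.2) := by
      intro a
      refine le_antisymm ?_ ?_
      · exact iSup_le fun p => iSup_le fun q => iSup_le fun h => le_iSup_of_le ⟨(p, q), h⟩ le_rfl
      · exact iSup_le fun r => le_iSup_of_le r.1.1 (le_iSup_of_le r.1.2 (le_iSup_of_le r.2 le_rfl))
    rw [e1, e1, iSup_inf_iSup]
    refine iSup_le fun ⟨⟨⟨p, q⟩, h⟩, ⟨⟨p', q'⟩, h'⟩⟩ => ?_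
    change beq b (check p) ⊓ beq a (check q) ⊓ (beq b (check p') ⊓ beq a' (check q')) ≤ beq a a'
    by_cases hp : p = p'
    · subst hp
      obtain rfl := hf1 p q q' ⟨h, h'⟩
      exact (ext_eq_right a).of_le' (x := check q) (inf_le_right.trans inf_le_right)
        (inf_le_left.trans inf_le_right)
    · refine le_trans ?_ bot_le
      rw [← beq_check_of_ne (B := B) hp]
      exact (ext_eq_left (check p')).of_le (x := b) (inf_le_left.trans inf_le_left)
        (inf_le_right.trans inf_le_left)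
  · refine le_trans ?_ (iInf_VBcheck (Ext.iSup fun b => (Ext.const _).inf
      (ext_rel_trd (check f) b)) x).ge
    refine le_iInf fun a => le_iInf fun ha => ?_
    obtain ⟨b, hb, hba⟩ := hf2 a ha
    refine le_iSup_of_le (check b) (le_inf ?_ ?_)
    · rw [VB_mem, mem_check_of_mem hb]
    · rw [rel_check_check_of_mem hba]

end Pool.Agent.Lib.MP_100a6c_lc
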