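import Mathlib

/-!
# The guessing model principle and Boolean-valued universes

All notions are written once, for an arbitrary `Str B U`: a collection `U` with membership and
equality relations taking values in a complete Boolean algebra `B`.  The quantifiers range over `U`
and the truth values are computed in `B`.  For `B = Prop`, `U = ZFSet` this is the usual meaning in
the universe of sets; for `U = BName B` it is the Boolean value of the notion in `V^B`.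
-/

universe u v w

open scoped symmDiff

namespace Pool.Agent.Lib.MP_100a6c_lc

/-- A collection `U` with `B`-valued membership and equality relations. -/
structure Str (B : Type v) (U : Type w) where
  mem : U → U → B
  eq : U → U → B

/-- Formulas of the language of set theory with free variables `0, ..., n-1`; in `all φ` the
quantified variable is variable `0` of `φ` and the free variables of `all φ` are shifted by one. -/
inductive Fml : ℕ → Type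
  | mem {n : ℕ} (i j : Fin n) : Fml n
  | eq {n : ℕ} (i j : Fin n) : Fml n
  | fls {n : ℕ} : Fml n
  | imp {n : ℕ} (φ ψ : Fml n) : Fml n
  | all {n : ℕ} (φ : Fml (n + 1)) : Fml n

namespace Str

variable {B : Type v} {U : Type w} [CompleteBooleanAlgebra B] (S : Str B U)

/-- `x ⊆ y`. -/
def sub (x y : U) : B := ⨅ z, S.mem z x ⇨ S.mem z y

/-- `p = {a, b}`. -/
def isUPair (p a b : U) : B := ⨅ z, S.mem z p ⇔ (S.eq z a ⊔ S.eq z b)

/-- `p = (a, b)`, the Kuratowski pair `{{a}, {a, b}}`. -/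
def isPair (p a b : U) : B :=
  ⨆ s, ⨆ t, S.isUPair s a a ⊓ S.isUPair t a b ⊓ S.isUPair p s t

/-- `(a, b) ∈ f`. -/
def rel (f a b : U) : B := ⨆ p, S.isPair p a b ⊓ S.mem p f

/-- `|x| ≤ |y|`: there is a set `f` such that for each `b` there is at most one `a` with
`(b, a) ∈ f`, and every `a ∈ x` has some `b ∈ y` with `(b, a) ∈ f`. -/
def leCard (x y : U) : B :=
  ⨆ f, (⨅ b, ⨅ a, ⨅ a', S.rel f b a ⊓ S.rel f b a' ⇨ S.eq a a') ⊓
    ⨅ a, S.mem a x ⇨ ⨆ b, S.mem b y ⊓ S.rel f b a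

/-- `x` is transitive. -/
def isTrans (x : U) : B := ⨅ y, S.mem y x ⇨ S.sub y x

/-- `x` is an ordinal (a transitive set of transitive sets). -/
def isOrd (x : U) : B := S.isTrans x ⊓ ⨅ y, S.mem y x ⇨ S.isTrans y

/-- `s` is a function from `a` to `b` (a set of ordered pairs). -/
def isFun (s a b : U) : B :=
  (⨅ p, S.mem p s ⇨ ⨆ x, ⨆ y, S.mem x a ⊓ S.mem y b ⊓ S.isPair p x y) ⊓
  (⨅ x, S.mem x a ⇨ ⨆ y, S.rel s x y) ⊓
  ⨅ x, ⨅ y, ⨅ y', S.rel s x y ⊓ S.rel s x y' ⇨ S.eq y y'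

/-- `θ` is a regular infinite cardinal: a nonzero limit ordinal such that every function from an
element of `θ` to `θ` is bounded in `θ`. -/
def isReg (θ : U) : B :=
  S.isOrd θ ⊓ (⨆ x, S.mem x θ) ⊓ (⨅ x, S.mem x θ ⇨ ⨆ y, S.mem y θ ⊓ S.mem x y) ⊓
  ⨅ ρ, S.mem ρ θ ⇨ ⨅ f, S.isFun f ρ θ ⇨
    ⨆ β, S.mem β θ ⊓ ⨅ x, ⨅ y, S.rel f x y ⇨ S.mem y β

/-- `κ` is a regular infinite cardinal and `κ^{<κ} = κ`: the set `F` of all functions from
elements of `κ` to `κ` satisfies `|F| ≤ κ`. -/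
def std (κ : U) : B :=
  S.isReg κ ⊓ ⨆ F, (⨅ s, S.mem s F ⇔ (⨆ ξ, S.mem ξ κ ⊓ S.isFun s ξ κ)) ⊓ S.leCard F κ

/-- `μ = κ⁺`: `μ` is an ordinal, `|μ| ≤ |κ|` fails, and `|ξ| ≤ |κ|` for all `ξ ∈ μ`. -/
def isSucc (μ κ : U) : B :=
  S.isOrd μ ⊓ (S.leCard μ κ)ᶜ ⊓ ⨅ ξ, S.mem ξ μ ⇨ S.leCard ξ κ

/-- `H = H(θ)`: the elements of `H` are the subsets of transitive sets `t` with `|t| < θ`. -/
def isH (H θ : U) : B :=
  ⨅ x, S.mem x H ⇔ (⨆ t, S.isTrans t ⊓ S.sub x t ⊓ ⨆ ρ, S.mem ρ θ ⊓ S.leCard t ρ)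

/-- `C` is closed and unbounded in `P_{μ⁺}(H) = {c ⊆ H : |c| ≤ μ}`: it consists of such sets, each
such set is contained in an element of `C`, and the union `w` of each nonempty chain `D ⊆ C` with
`|D| ≤ μ` is in `C`. -/
def isClub (C H μ : U) : B :=
  (⨅ c, S.mem c C ⇨ S.sub c H ⊓ S.leCard c μ) ⊓
  (⨅ x, S.sub x H ⊓ S.leCard x μ ⇨ ⨆ c, S.mem c C ⊓ S.sub x c) ⊓
  ⨅ D, S.sub D C ⊓ (⨆ c, S.mem c D) ⊓ S.leCard D μ ⊓
      (⨅ c, ⨅ c', S.mem c D ⊓ S.mem c' D ⇨ S.sub c c' ⊔ S.sub c' c) ⇨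
    ⨅ w, (⨅ y, S.mem y w ⇔ (⨆ c, S.mem c D ⊓ S.mem y c)) ⇨ S.mem w C

/-- `(X, ∈) ⊨ φ(v)`. -/
def sat (X : U) : {n : ℕ} → Fml n → (Fin n → U) → B
  | _, .mem i j, v => S.mem (v i) (v j)
  | _, .eq i j, v => S.eq (v i) (v j)
  | _, .fls, _ => ⊥
  | _, .imp φ ψ, v => sat X φ v ⇨ sat X ψ v
  | _, .all φ, v => ⨅ x, S.mem x X ⇨ sat X φ (Fin.cons x v)

/-- `M ≺ H`: `M` is an elementary substructure of `(H, ∈)`. -/
def elem (M H : U) : B :=
  S.sub M H ⊓ ⨅ n : ℕ, ⨅ φ : Fml n, ⨅ v : Fin n → U,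
    (⨅ i, S.mem (v i) M) ⇨ S.sat M φ v ⇔ S.sat H φ v

/-- `d` is `(κ⁺, M)`-approximated: `d ∩ z ∈ M` for every `z ∈ M ∩ P_{κ⁺}(M)`. -/
def approx (κ M d : U) : B :=
  ⨅ z, S.mem z M ⊓ S.sub z M ⊓ S.leCard z κ ⇨
    ⨆ t, S.mem t M ⊓ ⨅ y, S.mem y t ⇔ (S.mem y d ⊓ S.mem y z)

/-- `d` is `M`-guessed: some `e ∈ M` has `d ∩ M = e ∩ M`. -/
def guessed (M d : U) : B :=
  ⨆ e, S.mem e M ⊓ ⨅ y, S.mem y M ⇨ S.mem y d ⇔ S.mem y e

/-- `M` is a `κ⁺`-guessing model: `M ≺ H`, `M` has size `μ` (`= κ⁺`), `M` is closed under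
functions from elements of `κ` to `M`, and for `x ∈ M` every `(κ⁺, M)`-approximated subset of `x`
is `M`-guessed. -/
def isGuess (κ μ H M : U) : B :=
  S.elem M H ⊓ (S.leCard M μ ⊓ S.leCard μ M) ⊓
  (⨅ ξ, ⨅ s, S.mem ξ κ ⊓ S.isFun s ξ M ⇨ S.mem s M) ⊓
  ⨅ x, ⨅ d, S.mem x M ⊓ S.sub d x ⊓ S.approx κ M d ⇨ S.guessed M d

/-- The guessing model principle `GMP_{κ⁺⁺}`: (with `μ = κ⁺`) for every regular `θ > μ`, the set of
`κ⁺`-guessing models meets every closed unbounded subset `C` of `P_{κ⁺⁺}(H(θ))`. -/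
def gmp (κ : U) : B :=
  ⨆ μ, S.isSucc μ κ ⊓ ⨅ θ, ⨅ H, ⨅ C,
    S.isReg θ ⊓ S.mem μ θ ⊓ S.isH H θ ⊓ S.isClub C H μ ⇨
      ⨆ M, S.mem M C ⊓ S.isGuess κ μ H M

end Str

/-- The universe of sets. -/
def V : Str Prop ZFSet.{u} where
  mem x y := x ∈ y
  eq x y := x = y

/-- Names for elements of the Boolean-valued universe `V^B`. -/
inductive BName (B : Type u) : Type (u + 1)
  | mk (ι : Type u) (nm : ι → BName B) (vl : ι → B) : BName B

namespace BName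

variable {B : Type u} [CompleteBooleanAlgebra B]

/-- Boolean value of `x = y`. -/
def beq : BName B → BName B → B
  | mk _ a p, mk _ a' p' =>
    (⨅ i, p i ⇨ ⨆ j, p' j ⊓ beq (a i) (a' j)) ⊓ ⨅ j, p' j ⇨ ⨆ i, p i ⊓ beq (a i) (a' j)

/-- Boolean value of `x ∈ y`. -/
def bmem (x : BName B) : BName B → B
  | mk _ a p => ⨆ i, p i ⊓ beq x (a i)

/-- The canonical name of a set (on pre-sets). -/
def checkP : PSet.{u} → BName B
  | PSet.mk α A => mk α (fun a => checkP (A a)) fun _ => ⊤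

/-- The canonical name of a set. -/
noncomputable def check (x : ZFSet.{u}) : BName B := checkP (Quotient.out x)

end BName

/-- The Boolean-valued universe `V^B`. -/
def VB (B : Type u) [CompleteBooleanAlgebra B] : Str B (BName B) where
  mem := BName.bmem
  eq := BName.beq

/-- `P` is `κ⁺`-centered: a union of `κ` many sets, each of which contains a common lower bound of
any two of its elements. -/
def Centered (κ : ZFSet.{u}) (P : Type u) [Preorder P] : Prop :=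
  ∃ C : {ξ : ZFSet.{u} // ξ ∈ κ} → Set P, (∀ p, ∃ ξ, p ∈ C ξ) ∧
    ∀ ξ, ∀ p ∈ C ξ, ∀ q ∈ C ξ, ∃ r ∈ C ξ, r ≤ p ∧ r ≤ q

end Pool.Agent.Lib.MP_100a6c_lc
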