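import Pool.Agent.Lib.MP_100a6c_lc.Base5

/-!
# Interfaces of the modules about the Boolean-valued universe
-/

universe u v

open Cardinal

namespace Pool.Agent.Lib.MP_100a6c_lc

open BName

/-- Every subset of `B` has a subset of size `≤ c` with the same supremum (equivalent to the
`c⁺`-chain condition). -/
def CCov (c : Cardinal.{u}) (B : Type u) [CompleteBooleanAlgebra B] : Prop :=
  ∀ s : Set B, ∃ t ⊆ s, #t ≤ c ∧ sSup t = sSup s

/-- Version for families. -/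
theorem CCov.fam {B : Type u} [CompleteBooleanAlgebra B] {c : Cardinal.{u}} (h : CCov c B)
    {T : Type v} [Nonempty T] (f : T → B) {K : Type u} (hK : #K = c) :
    ∃ g : K → T, ⨆ k, f (g k) = ⨆ i, f i := by
  classical
  obtain ⟨t, hts, htc, hsup⟩ := h (Set.range f)
  rw [← hK] at htc
  obtain ⟨e⟩ := htc
  choose p hp using fun x : t => hts x.2
  refine ⟨fun k => if hk : ∃ x, e x = k then p hk.choose else Classical.arbitrary T, ?_⟩
  refine le_antisymm (iSup_le fun k => le_iSup f _) ?_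
  have : (⨆ i, f i) = sSup t := by rw [hsup]; rfl
  rw [this]
  refine sSup_le fun b hb => ?_
  refine le_iSup_of_le (e ⟨b, hb⟩) ?_
  have hk : ∃ x, e x = e ⟨b, hb⟩ := ⟨_, rfl⟩
  simp only [dif_pos hk]
  rw [hp, e.injective hk.choose_spec]

/-- The cardinal `c` as a set. -/
noncomputable def Kap (c : Cardinal.{u}) : ZFSet.{u} := c.ord.toZFSet

/-- The cardinal `c⁺` as a set. -/
noncomputable def Mu (c : Cardinal.{u}) : ZFSet.{u} := (Order.succ c).ord.toZFSet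

/-- ORD: the ordinals of `V^B` are (mixtures of) check names of ordinals; a regular cardinal of
`V^B` is regular in `V`. -/
def OrdStatement : Prop := ∀ (B : Type u) [CompleteBooleanAlgebra B],
  (∀ x : BName B, (VB B).isOrd x ≤ ⨆ y : {y : ZFSet.{u} // y.IsOrdinal}, beq x (check y.1)) ∧
  (∀ Θ : ZFSet.{u}, (VB B).isReg (check Θ) ≠ ⊥ → V.isReg Θ)

/-- CC: the chain condition and `κ⁺`. -/
def CCStatement : Prop := ∀ (B : Type u) [CompleteBooleanAlgebra B] (c : Cardinal.{u}), ℵ₀ ≤ c →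
  (∀ (K : Type u) (U : K → Set B), #K = c → (∀ k, IsUlt (U k)) →
    (∀ b : B, b ≠ ⊥ → ∃ k, b ∈ U k) → CCov c B) ∧
  (CCov c B → (VB B).isSucc (check (Mu c)) (check (Kap c)) = ⊤)

/-- Closure properties of `H(θ)` at `Γ`, first part. -/
structure HProp0 {B : Type u} [CompleteBooleanAlgebra B] (c : Cardinal.{u}) (Γ : B)
    (H : BName B) : Prop where
  sub : ∀ Δ ≤ Γ, ∀ x y, Δ ≤ (VB B).sub x y → Δ ≤ bmem y H → Δ ≤ bmem x H
  trans : ∀ Δ ≤ Γ, ∀ x y, Δ ≤ bmem x y → Δ ≤ bmem y H → Δ ≤ bmem x H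
  mu : Γ ≤ bmem (check (Mu c)) H
  small : ∀ Δ ≤ Γ, ∀ x, Δ ≤ (VB B).sub x H → Δ ≤ (VB B).leCard x (check (Kap c)) → Δ ≤ bmem x H

/-- Closure properties of `H(θ)` at `Γ`. -/
structure HProp {B : Type u} [CompleteBooleanAlgebra B] (c : Cardinal.{u}) (Γ : B)
    (H : BName B) : Prop extends HProp0 c Γ H where
  upair : ∀ Δ ≤ Γ, ∀ x y, Δ ≤ bmem x H → Δ ≤ bmem y H → Δ ≤ bmem (upr x y) H
  pair : ∀ Δ ≤ Γ, ∀ x y, Δ ≤ bmem x H → Δ ≤ bmem y H → Δ ≤ bmem (opr x y) H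
  func : ∀ Δ ≤ Γ, ∀ ξ ∈ Kap c, ∀ s, Δ ≤ (VB B).isFun s (check ξ) H → Δ ≤ bmem s H

/-- HS1. -/
def HS1Statement : Prop := ∀ (B : Type u) [CompleteBooleanAlgebra B] (c : Cardinal.{u}), ℵ₀ ≤ c →
  CCov c B → ∀ (Γ : B) (H : BName B) (Θ : ZFSet.{u}), V.isReg Θ → Mu c ∈ Θ →
    Γ ≤ (VB B).isH H (check Θ) → HProp0 c Γ H

/-- HS2. -/
def HS2Statement : Prop := ∀ (B : Type u) [CompleteBooleanAlgebra B] (c : Cardinal.{u}), ℵ₀ ≤ c →
  ∀ (Γ : B) (H : BName B), HProp0 c Γ H → HProp c Γ H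

/-- `J` is closed under the rule `R`. -/
def LClosed {I : Type u} (R : List I → Set I) (J : Set I) : Prop :=
  ∀ l : List I, (∀ i ∈ l, i ∈ J) → R l ⊆ J

/-- A monotone system of members of `C`, indexed by finite sets. -/
structure FinApprox {B : Type u} [CompleteBooleanAlgebra B] (Γ : B) (C : BName B) {I : Type u}
    (A : I → BName B) (cl : Finset I → BName B) : Prop where
  mem : ∀ F : Finset I, F.Nonempty → Γ ≤ bmem (cl F) C
  self : ∀ (F : Finset I) (i : I), i ∈ F → Γ ≤ bmem (A i) (cl F)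
  mono : ∀ F F' : Finset I, F.Nonempty → F ⊆ F' → Γ ≤ (VB B).sub (cl F) (cl F')

/-- The union of the system over the finite nonempty subsets of `X`. -/
def clU {B : Type u} {I : Type u} [CompleteBooleanAlgebra B] (cl : Finset I → BName B)
    (X : Set I) : BName B :=
  uni (fun F : {F : Finset I // (F : Set I) ⊆ X ∧ F.Nonempty} => cl F.1) (fun _ => ⊤)

/-- CL1: there is a monotone system of members of the club `C`. -/
def CL1Statement : Prop := ∀ (B : Type u) [CompleteBooleanAlgebra B] (c : Cardinal.{u}), ℵ₀ ≤ c →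
  ∀ (Γ : B) (H C : BName B) (I : Type u) (A : I → BName B), (∀ i, Γ ≤ bmem (A i) H) →
    Γ ≤ (VB B).isClub C H (check (Mu c)) → ∃ cl : Finset I → BName B, FinApprox Γ C A cl

/-- CL2: unions of such systems are in `C`. -/
def CL2Statement : Prop := ∀ (B : Type u) [CompleteBooleanAlgebra B] (c : Cardinal.{u}), ℵ₀ ≤ c →
  ∀ (Γ : B) (H C : BName B) (I : Type u) (A : I → BName B),
    Γ ≤ (VB B).isClub C H (check (Mu c)) → ∀ cl : Finset I → BName B, FinApprox Γ C A cl →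
      ∀ X : Set I, X.Nonempty → #X ≤ Order.succ c → Γ ≤ bmem (clU cl X) C

/-- CL3: the rule for the club `C`. -/
def CL3Statement : Prop := ∀ (B : Type u) [CompleteBooleanAlgebra B] (c : Cardinal.{u}), ℵ₀ ≤ c →
  ∀ (Γ : B) (H C : BName B) (I : Type u) (A : I → BName B), Rep Γ H A →
    Γ ≤ (VB B).isClub C H (check (Mu c)) →
      ∃ R : List I → Set I, (∀ l, #(R l) ≤ Order.succ c) ∧
        ∀ J : Set I, J.Nonempty → #J ≤ Order.succ c → LClosed R J → Γ ≤ bmem (nameJ A J) C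

/-- ELEM: Skolem functions. -/
def ElemStatement : Prop := ∀ (B : Type u) [CompleteBooleanAlgebra B] (Γ : B) (H : BName B)
  (I : Type u) [Nonempty I] (A : I → BName B), Rep Γ H A →
    ∃ R : List I → Set I, (∀ l, #(R l) ≤ ℵ₀) ∧
      ∀ J : Set I, LClosed R J → Γ ≤ (VB B).elem (nameJ A J) H

/-- ENUM: if `κ^{<κ} = κ` then the functions from `ξ < κ` to a set of size `≤ κ` are enumerated by
a family of size `κ`. -/
def EnumStatement : Prop := ∀ (B : Type u) [CompleteBooleanAlgebra B] (c : Cardinal.{u}), ℵ₀ ≤ c →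
  ∀ (Γ : B), Γ ≤ (VB B).std (check (Kap c)) → ∀ (K : Type u), #K = c →
    ∀ ξ ∈ Kap c, ∀ (Z : BName B), Γ ≤ (VB B).leCard Z (check (Kap c)) →
      ∃ e : K → BName B, ∀ s, Γ ⊓ (VB B).isFun s (check ξ) Z ≤ ⨆ k, beq s (e k)

/-- CLOS: closure under functions from elements of `κ`. -/
def ClosStatement : Prop := ∀ (B : Type u) [CompleteBooleanAlgebra B] (c : Cardinal.{u}), ℵ₀ ≤ c →
  CCov c B → ∀ (Γ : B) (H : BName B), HProp c Γ H → Γ ≤ (VB B).std (check (Kap c)) →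
    ∀ (I : Type u) [Nonempty I] (A : I → BName B), Rep Γ H A →
      ∃ R : Set I → Set I, (∀ z, #(R z) ≤ c) ∧ ∀ (K : Type u), #K = c →
        ∀ (J : Set I) (Z : Set (Set I)), J.Nonempty → (∀ z ∈ Z, #z ≤ c → R z ⊆ J) →
          (∀ a : K → I, (∀ k, a k ∈ J) → ∃ z ∈ Z, #z ≤ c ∧ ∀ k, a k ∈ z) →
            Γ ≤ ⨅ ξ, ⨅ s, (VB B).mem ξ (check (Kap c)) ⊓ (VB B).isFun s ξ (nameJ A J) ⇨
              (VB B).mem s (nameJ A J)

/-- OMEGA: `ω` is regular with `ω^{<ω} = ω` in `V^B`. -/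
def OmegaStatement : Prop := ∀ (B : Type u) [CompleteBooleanAlgebra B],
  (VB B).std (check Ordinal.omega0.toZFSet) = ⊤

end Pool.Agent.Lib.MP_100a6c_lc
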