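import Pool.Agent.Lib.MP_100a6c_lc.IfaceB
import Pool.Agent.Lib.MP_100a6c_lc.H1.RO

/-!
# Interfaces for the case of an uncountable `κ` whose standing hypothesis is destroyed

For uncountable `κ`, adding `κ⁺⁺` Cohen reals is `κ⁺`-centered (since `2^κ ≥ κ⁺⁺`) and forces that
no set of size `κ⁺` with at least two elements is closed under functions from `ω`.
-/

universe u v

open Cardinal
open scoped symmDiff

namespace Pool.Agent.Lib.MP_100a6c_lc

open BName

/-- PA. -/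
def PAStatement : Prop := ∀ κ : ZFSet.{u}, V.std κ → V.gmp κ →
  Order.succ (Order.succ κ.card) ≤ 2 ^ κ.card

/-- PB: Cohen reals. -/
def PBStatement : Prop := ∀ κ : ZFSet.{u}, ℵ₀ ≤ κ.card → ∀ L : Type u, #L ≤ 2 ^ κ.card →
  ∃ (P : Type u) (_ : Preorder P), Nonempty P ∧ Centered κ P ∧
    ∃ a : L → ℕ → H1.RO P, ∀ l l' : L, l ≠ l' → ⨅ n, (a l n ⇔ a l' n) = ⊥

/-- PC: `H(Θ)` exists in `V^B`. -/
def PCStatement : Prop := ∀ (B : Type u) [CompleteBooleanAlgebra B] (o : Ordinal.{u}),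
  ∃ H : BName B, (VB B).isH H (check o.toZFSet) = ⊤

/-- PD: large regular cardinals stay regular. -/
def PDStatement : Prop := ∀ (B : Type u) [CompleteBooleanAlgebra B] (d : Cardinal.{u}),
  d.IsRegular → #B < d → (VB B).isReg (check (Kap d)) = ⊤

/-- PE: `P_{μ⁺}(H)` is closed unbounded in itself. -/
def PEStatement : Prop := ∀ (B : Type u) [CompleteBooleanAlgebra B] (c : Cardinal.{u}), ℵ₀ ≤ c →
  ∀ H : BName B, ∃ C : BName B, (VB B).isClub C H (check (Mu c)) = ⊤

/-- PF: failure of `GMP` after adding many reals. -/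
def PFStatement : Prop := ∀ (B : Type u) [CompleteBooleanAlgebra B] (c : Cardinal.{u}), ℵ₀ < c →
  CCov c B → ∀ (L : Type u), #L = Order.succ (Order.succ c) → ∀ a : L → ℕ → B,
    (∀ l l' : L, l ≠ l' → ⨅ n, (a l n ⇔ a l' n) = ⊥) → (VB B).gmp (check (Kap c)) = ⊥

end Pool.Agent.Lib.MP_100a6c_lc
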